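import Mathlib

set_option autoImplicit false
set_option linter.unusedSectionVars false

/-!
# Polynomial functions of a matrix, with rational coefficients
-/

open Matrix

noncomputable section

namespace Pool.Agent.T6.H14.UG

variable {R : Type} [Fintype R] [DecidableEq R]

/-- A function of the entries of a matrix which is a polynomial with rational coefficients. -/
def RP (f : Matrix R R ℂ → ℂ) : Prop :=
  ∃ p : MvPolynomial (R × R) ℚ, ∀ M, f M = MvPolynomial.aeval (fun b : R × R => M b.1 b.2) p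

theorem RP.entry (i j : R) : RP fun M : Matrix R R ℂ => M i j :=
  ⟨MvPolynomial.X (i, j), fun M => by rw [MvPolynomial.aeval_X]⟩

theorem RP.const (q : ℚ) : RP fun _ : Matrix R R ℂ => (q : ℂ) :=
  ⟨MvPolynomial.C q, fun M => by rw [MvPolynomial.aeval_C]; rfl⟩

theorem RP.zero : RP fun _ : Matrix R R ℂ => (0 : ℂ) := by
  have h := RP.const (R := R) 0
  simpa using h

theorem RP.one : RP fun _ : Matrix R R ℂ => (1 : ℂ) := by
  have h := RP.const (R := R) 1
  simpa using h

theorem RP.add {f g : Matrix R R ℂ → ℂ} (hf : RP f) (hg : RP g) : RP fun M => f M + g M := by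
  obtain ⟨p, hp⟩ := hf
  obtain ⟨q, hq⟩ := hg
  exact ⟨p + q, fun M => by
    change f M + g M = _
    rw [map_add, hp, hq]⟩

theorem RP.mul {f g : Matrix R R ℂ → ℂ} (hf : RP f) (hg : RP g) : RP fun M => f M * g M := by
  obtain ⟨p, hp⟩ := hf
  obtain ⟨q, hq⟩ := hg
  exact ⟨p * q, fun M => by
    change f M * g M = _
    rw [map_mul, hp, hq]⟩

theorem RP.sub {f g : Matrix R R ℂ → ℂ} (hf : RP f) (hg : RP g) : RP fun M => f M - g M := by
  obtain ⟨p, hp⟩ := hf
  obtain ⟨q, hq⟩ := hg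
  exact ⟨p - q, fun M => by
    change f M - g M = _
    rw [map_sub, hp, hq]⟩

theorem RP.sum {ι : Type} (s : Finset ι) {f : ι → Matrix R R ℂ → ℂ} (hf : ∀ i, RP (f i)) :
    RP fun M => ∑ i ∈ s, f i M := by
  classical
  choose p hp using hf
  exact ⟨∑ i ∈ s, p i, fun M => by
    rw [map_sum]
    exact Finset.sum_congr rfl fun i _ => hp i M⟩

/-- A matrix valued function with polynomial entries. -/
def RPM {I J : Type} (F : Matrix R R ℂ → Matrix I J ℂ) : Prop := ∀ i j, RP fun M => F M i j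

theorem RPM.mul {I J K : Type} [Fintype J] {F : Matrix R R ℂ → Matrix I J ℂ}
    {G : Matrix R R ℂ → Matrix J K ℂ} (hF : RPM F) (hG : RPM G) : RPM fun M => F M * G M := by
  intro i k
  simp only [Matrix.mul_apply]
  exact RP.sum _ fun j => (hF i j).mul (hG j k)

theorem RPM.transpose {I J : Type} {F : Matrix R R ℂ → Matrix I J ℂ} (hF : RPM F) :
    RPM fun M => (F M)ᵀ := fun i j => hF j i

theorem RPM.add {I J : Type} {F G : Matrix R R ℂ → Matrix I J ℂ} (hF : RPM F) (hG : RPM G) :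
    RPM fun M => F M + G M := fun i j => (hF i j).add (hG i j)

theorem RPM.sub {I J : Type} {F G : Matrix R R ℂ → Matrix I J ℂ} (hF : RPM F) (hG : RPM G) :
    RPM fun M => F M - G M := fun i j => (hF i j).sub (hG i j)

theorem RPM.smul {I J : Type} {f : Matrix R R ℂ → ℂ} {F : Matrix R R ℂ → Matrix I J ℂ}
    (hf : RP f) (hF : RPM F) : RPM fun M => f M • F M := fun i j => hf.mul (hF i j)

/-- a rational matrix -/
def IsRatM {I J : Type} (F : Matrix I J ℂ) : Prop := ∀ i j, ∃ q : ℚ, F i j = q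

theorem RPM.const {I J : Type} {F : Matrix I J ℂ} (hF : IsRatM F) :
    RPM fun _ : Matrix R R ℂ => F := by
  intro i j
  obtain ⟨q, hq⟩ := hF i j
  have h := RP.const (R := R) q
  simpa only [hq] using h

theorem RPM.id : RPM fun M : Matrix R R ℂ => M := fun i j => RP.entry i j

/-- A set of matrices which is defined by polynomials with rational coefficients. -/
def AS (S : Set (Matrix R R ℂ)) : Prop :=
  ∃ I : Set (MvPolynomial (R × R) ℚ), ∀ M, M ∈ S ↔
    ∀ p ∈ I, MvPolynomial.aeval (fun b : R × R => M b.1 b.2) p = 0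

theorem AS.eq {f g : Matrix R R ℂ → ℂ} (hf : RP f) (hg : RP g) : AS {M | f M = g M} := by
  obtain ⟨p, hp⟩ := hf.sub hg
  refine ⟨{p}, fun M => ?_⟩
  change f M = g M ↔ _
  have h1 : f M - g M = _ := hp M
  rw [← sub_eq_zero, h1]
  constructor
  · intro h2 q hq
    rw [Set.mem_singleton_iff.1 hq]
    exact h2
  · intro h2
    exact h2 p rfl

theorem AS.all {ι : Type} {S : ι → Set (Matrix R R ℂ)} (h : ∀ i, AS (S i)) :
    AS {M | ∀ i, M ∈ S i} := by
  choose I hI using h
  refine ⟨⋃ i, I i, fun M => ?_⟩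
  change (∀ i, M ∈ S i) ↔ _
  constructor
  · rintro h p hp
    obtain ⟨i, hi⟩ := Set.mem_iUnion.1 hp
    exact (hI i M).1 (h i) p hi
  · intro h i
    exact (hI i M).2 fun p hp => h p (Set.mem_iUnion.2 ⟨i, hp⟩)

theorem AS.and {S T : Set (Matrix R R ℂ)} (hS : AS S) (hT : AS T) : AS {M | M ∈ S ∧ M ∈ T} := by
  obtain ⟨I, hI⟩ := hS
  obtain ⟨K, hK⟩ := hT
  refine ⟨I ∪ K, fun M => ?_⟩
  change M ∈ S ∧ M ∈ T ↔ _
  rw [hI, hK]
  constructor
  · rintro ⟨h1, h2⟩ p (hp | hp)
    · exact h1 p hp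
    · exact h2 p hp
  · intro h
    exact ⟨fun p hp => h p (Or.inl hp), fun p hp => h p (Or.inr hp)⟩

theorem AS.eqM {I J : Type} {F G : Matrix R R ℂ → Matrix I J ℂ} (hF : RPM F) (hG : RPM G) :
    AS {M | F M = G M} := by
  have h := AS.all (R := R) (ι := I × J) (S := fun c => {M | F M c.1 c.2 = G M c.1 c.2})
    fun c => AS.eq (hF c.1 c.2) (hG c.1 c.2)
  have h2 : {M | F M = G M} = {M | ∀ c : I × J, M ∈ {M | F M c.1 c.2 = G M c.1 c.2}} := by
    ext M
    change F M = G M ↔ ∀ c : I × J, F M c.1 c.2 = G M c.1 c.2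
    constructor
    · intro h c
      rw [h]
    · intro h
      ext i j
      exact h (i, j)
  rw [h2]
  exact h

end Pool.Agent.T6.H14.UG
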