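import Mathlib

set_option autoImplicit false

/-!
# Block matrices of the parabolic group of a 1-motive
-/

open Matrix

noncomputable section

namespace Pool.Agent.T6.H14.UG

variable {J S N : Type} [Fintype J] [Fintype S] [Fintype N] [DecidableEq J] [DecidableEq S]
  [DecidableEq N]

/-- The block matrix with the rows `(X, y, 0)`, `(0, a, 0)`, `(z, t, b)`. -/
def bm (X : Matrix J J ℂ) (y : Matrix J S ℂ) (a : ℂ) (z : Matrix N J ℂ) (t : Matrix N S ℂ)
    (b : ℂ) : Matrix (J ⊕ (S ⊕ N)) (J ⊕ (S ⊕ N)) ℂ := Matrix.of fun r r' =>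
  Sum.elim (fun j => Sum.elim (fun j' => X j j') (Sum.elim (fun l => y j l) (fun _ => 0)) r')
    (Sum.elim
      (fun l => Sum.elim (fun _ => 0) (Sum.elim (fun l' => if l = l' then a else 0)
        (fun _ => 0)) r')
      (fun i => Sum.elim (fun j' => z i j')
        (Sum.elim (fun l => t i l) (fun i' => if i = i' then b else 0)) r')) r

variable (X X' : Matrix J J ℂ) (y y' : Matrix J S ℂ) (a a' : ℂ) (z z' : Matrix N J ℂ)
  (t t' : Matrix N S ℂ) (b b' : ℂ)

theorem bm_mul : bm X y a z t b * bm X' y' a' z' t' b' =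
    bm (X * X') (X * y' + a' • y) (a * a') (z * X' + b • z') (z * y' + a' • t + b • t')
      (b * b') := by
  ext r r'
  rw [Matrix.mul_apply, Fintype.sum_sum_type, Fintype.sum_sum_type]
  rcases r with j | l | i <;> rcases r' with j' | l' | i' <;>
    simp only [bm, Matrix.of_apply, Sum.elim_inl, Sum.elim_inr, mul_zero, zero_mul,
      Finset.sum_const_zero, add_zero, zero_add, mul_ite, ite_mul,
      Finset.sum_ite_eq, Finset.sum_ite_eq', Finset.mem_univ, if_true, Matrix.add_apply,
      Matrix.smul_apply, Matrix.mul_apply, smul_eq_mul]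
  · ring
  · ring

theorem bm_one : bm (1 : Matrix J J ℂ) (0 : Matrix J S ℂ) 1 (0 : Matrix N J ℂ) 0 1 = 1 := by
  ext r r'
  rcases r with j | l | i <;> rcases r' with j' | l' | i' <;>
    simp [bm, Matrix.one_apply]

theorem bm_add : bm X y a z t b + bm X' y' a' z' t' b' =
    bm (X + X') (y + y') (a + a') (z + z') (t + t') (b + b') := by
  ext r r'
  rcases r with j | l | i <;> rcases r' with j' | l' | i' <;>
    simp only [bm, Matrix.of_apply, Sum.elim_inl, Sum.elim_inr, add_zero, Matrix.add_apply]
  · split_ifs <;> simp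
  · split_ifs <;> simp

theorem bm_smul (c : ℂ) : c • bm X y a z t b = bm (c • X) (c • y) (c * a) (c • z) (c • t)
    (c * b) := by
  ext r r'
  rcases r with j | l | i <;> rcases r' with j' | l' | i' <;>
    simp [bm]

end Pool.Agent.T6.H14.UG
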