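import Pool.Agent.T6.H14.UG.Frm

set_option autoImplicit false
set_option linter.unusedSectionVars false
set_option linter.unusedSimpArgs false

/-!
# The Hodge structure in the adapted frame
-/

open Module Function TensorProduct Matrix

noncomputable section

namespace Pool.Agent.T6.H14.UG

open Pool.Agent.Y102 Pool.Agent.W516.DR Pool.Agent.H204R3.GP Pool.Agent.W516.KC
  Pool.Agent.H204R3.SP Pool.Agent.TH119.MX Pool.Agent.R917.OM Pool.Agent.R917.BX
  Pool.Agent.R917

variable {g : ℕ} {n s : ℕ}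

/-- Complex numbers are determined by their rational components. -/
theorem eq_of_lam {x y : ℂ} (h : ∀ lam : ℂ →ₗ[ℚ] ℚ, lam x = lam y) : x = y := by
  rw [← sub_eq_zero]
  refine (Module.forall_dual_apply_eq_zero_iff ℚ (x - y)).1 fun lam => ?_
  rw [map_sub, h, sub_self]

theorem mat_eq_of_lam {I J : Type} {M M' : Matrix I J ℂ}
    (h : ∀ lam : ℂ →ₗ[ℚ] ℚ, M.map (lamF lam) = M'.map (lamF lam)) : M = M' := by
  ext i j
  refine eq_of_lam fun lam => ?_
  have h1 := congrFun (congrFun (h lam) i) j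
  rw [Matrix.map_apply, Matrix.map_apply, lamF_apply, lamF_apply] at h1
  exact_mod_cast h1

theorem map_mul_rat {I J K : Type} [Fintype J] (lam : ℂ →ₗ[ℚ] ℚ) {M : Matrix I J ℂ}
    {N : Matrix J K ℂ} (hN : IsRatM N) : (M * N).map (lamF lam) = M.map (lamF lam) * N := by
  ext i k
  rw [Matrix.map_apply, Matrix.mul_apply, Matrix.mul_apply, map_sum]
  refine Finset.sum_congr rfl fun j _ => ?_
  obtain ⟨q, hq⟩ := hN j k
  rw [hq, Matrix.map_apply, lamF_apply, lamF_apply, mul_comm, ← Rat.smul_def, map_smul,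
    smul_eq_mul]
  push_cast
  ring

theorem map_rat_mul {I J K : Type} [Fintype J] (lam : ℂ →ₗ[ℚ] ℚ) {M : Matrix I J ℂ}
    {N : Matrix J K ℂ} (hM : IsRatM M) : (M * N).map (lamF lam) = M * N.map (lamF lam) := by
  ext i k
  rw [Matrix.map_apply, Matrix.mul_apply, Matrix.mul_apply, map_sum]
  refine Finset.sum_congr rfl fun j _ => ?_
  obtain ⟨q, hq⟩ := hM i j
  rw [hq, Matrix.map_apply, lamF_apply, lamF_apply, ← Rat.smul_def, map_smul, smul_eq_mul]
  push_cast
  ring

theorem isRatM_mul {I J K : Type} [Fintype J] {M : Matrix I J ℂ}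
    {N : Matrix J K ℂ} (hM : IsRatM M) (hN : IsRatM N) : IsRatM (M * N) := by
  intro i k
  choose a ha using hM
  choose b hb using hN
  refine ⟨∑ j, a i j * b j k, ?_⟩
  rw [Matrix.mul_apply]
  push_cast
  exact Finset.sum_congr rfl fun j _ => by rw [ha, hb]

theorem isRatM_bm {X : Matrix (Fin (2 * g)) (Fin (2 * g)) ℂ} {y : Matrix (Fin (2 * g)) (Fin s) ℂ}
    {a b : ℚ} {z : Matrix (Fin n) (Fin (2 * g)) ℂ} {t : Matrix (Fin n) (Fin s) ℂ}
    (hX : IsRatM X) (hy : IsRatM y) (hz : IsRatM z) (ht : IsRatM t) :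
    IsRatM (bm X y a z t b) := by
  have h0 : ∃ q : ℚ, (0 : ℂ) = q := ⟨0, by simp⟩
  intro r r'
  rcases r with j | l | i <;> rcases r' with j' | l' | i' <;>
    simp only [bm, Matrix.of_apply, Sum.elim_inl, Sum.elim_inr]
  · exact hX _ _
  · exact hy _ _
  · exact h0
  · exact h0
  · split_ifs
    · exact ⟨a, rfl⟩
    · exact h0
  · exact h0
  · exact hz _ _
  · exact ht _ _
  · split_ifs
    · exact ⟨b, rfl⟩
    · exact h0

theorem isRatM_un {A : AbVar g} {Zi : Matrix (Fin n) (Fin (2 * g)) ℂ}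
    {Zr : Matrix (Fin s) (Fin (2 * g)) ℂ} {T : Matrix (Fin n) (Fin s) ℂ} (h1 : IsRatM Zi)
    (h2 : IsRatM Zr) (h3 : IsRatM T) : IsRatM (un A Zi Zr T) := by
  have hO : IsRatM (OmM A) := isRatM_map _
  have h4 : IsRatM (Zr * OmM A)ᵀ := fun i j => isRatM_mul h2 hO j i
  have h5 : IsRatM (T + (2⁻¹ : ℂ) • (Zi * (Zr * OmM A)ᵀ)) := by
    intro i j
    obtain ⟨a, ha⟩ := h3 i j
    obtain ⟨b, hb⟩ := isRatM_mul h1 h4 i j
    refine ⟨a + 2⁻¹ * b, ?_⟩
    rw [Matrix.add_apply, Matrix.smul_apply, ha, hb, smul_eq_mul]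
    push_cast
    ring
  rw [un_eq]
  have h6 : IsRatM (1 : Matrix (Fin (2 * g)) (Fin (2 * g)) ℂ) := by
    intro i j
    rw [Matrix.one_apply]
    split_ifs
    · exact ⟨1, by simp⟩
    · exact ⟨0, by simp⟩
  have h7 := isRatM_bm (a := 1) (b := 1) h6 h4 h1 h5
  simpa using h7

section frame

variable {A : AbVar g} {d : Dt g n s}

theorem isRatM_zI (z : (Fin n ⊕ Fin s) → A.H1) : IsRatM (zI z) := fun _ _ => ⟨_, rfl⟩

theorem isRatM_zR (z : (Fin n ⊕ Fin s) → A.H1) : IsRatM (zR z) := fun _ _ => ⟨_, rfl⟩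

theorem isRatM_zero {I J : Type} : IsRatM (0 : Matrix I J ℂ) := fun _ _ => ⟨0, by simp⟩

theorem XJ_frame (w : (Fin n ⊕ Fin s) → A.H1) :
    un A (zI w) (zR w) 0 * XJ A (fd w d) = XJ A d * un A (zI w) (zR w) 0 := by
  refine mat_eq_of_lam fun lam => ?_
  have hK := isRatM_un (A := A) (isRatM_zI w) (isRatM_zR w) (isRatM_zero (I := Fin n) (J := Fin s))
  rw [map_rat_mul lam hK, map_mul_rat lam hK, ← mt_tJ, ← mt_tJ, ← cj_tJ]
  refine un_mul_mt w ?_
  exact A.NA_skew (A.MA_le_NA (A.J_mem (fr lam)))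

theorem XW_frame (w : (Fin n ⊕ Fin s) → A.H1) :
    un A (zI w) (zR w) 0 * XW A (fd w d) = XW A d * un A (zI w) (zR w) 0 := by
  refine mat_eq_of_lam fun lam => ?_
  have hK := isRatM_un (A := A) (isRatM_zI w) (isRatM_zR w) (isRatM_zero (I := Fin n) (J := Fin s))
  rw [map_rat_mul lam hK, map_mul_rat lam hK, ← mt_tW, ← mt_tW, ← cj_tW]
  refine un_mul_mt w fun u v => ?_
  change A.om ((0 : Module.End ℚ A.H1) u) v + A.om u ((0 : Module.End ℚ A.H1) v) = 0
  simp

variable (A d)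

/-- the coordinates of the points -/
def pI : Matrix (Fin n) (Fin (2 * g)) ℂ :=
  Matrix.of fun i j => ((A.lam.repr (pt d (Sum.inl i)) j : ℝ) : ℂ)

/-- the coordinates of the dual points -/
def pR : Matrix (Fin s) (Fin (2 * g)) ℂ :=
  Matrix.of fun l j => ((A.lam.repr (pt d (Sum.inr l)) j : ℝ) : ℂ)

/-- the torus part -/
def pT : Matrix (Fin n) (Fin s) ℂ := Matrix.of fun i l =>
  kap A d i l + 2⁻¹ * ((A.E (pt d (Sum.inr l)) (pt d (Sum.inl i)) : ℝ) : ℂ)

theorem repr_I (x : Fin g → ℂ) (j' : Fin (2 * g)) :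
    ∑ j, ((A.lam.repr x j : ℝ) : ℂ) * hm A Complex.I j j' =
      ((A.lam.repr (Complex.I • x) j' : ℝ) : ℂ) := by
  have h1 : Complex.I • x = ∑ j, A.lam.repr x j • (Complex.I • A.lam j) := by
    conv_lhs => rw [← A.lam.sum_repr x, Finset.smul_sum]
    exact Finset.sum_congr rfl fun j _ => smul_comm _ _ _
  rw [h1, map_sum, Finsupp.finsetSum_apply]
  push_cast
  refine Finset.sum_congr rfl fun j _ => ?_
  rw [map_smul, Finsupp.smul_apply, smul_eq_mul, Complex.ofReal_mul, hm_apply]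

theorem XJ_bm : XJ A d = bm (hm A Complex.I) (pR A d * hm A Complex.I * OmM A)ᵀ 0
    (pI A d * hm A Complex.I)
    (Matrix.of fun i l => ((A.E (Complex.I • pt d (Sum.inr l)) (pt d (Sum.inl i)) : ℝ) : ℂ)) 0 := by
  ext r r'
  rcases r with j | l | i <;> rcases r' with j' | l' | i' <;>
    simp only [XJ, bm, Matrix.of_apply, Sum.elim_inl, Sum.elim_inr, ite_self]
  · rfl
  · rw [E_rows A (pR A d * hm A Complex.I) (fun l => Complex.I • pt d (Sum.inr l)) fun l j => ?_]
    rw [← repr_I]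
    rfl
  · rw [← repr_I]
    rfl

theorem XW_bm : XW A d = bm 1 (pR A d * OmM A)ᵀ 2 (pI A d)
    ((2 : ℂ) • pT A d) 0 := by
  ext r r'
  rcases r with j | l | i <;> rcases r' with j' | l' | i' <;>
    simp only [XW, bm, Matrix.of_apply, Sum.elim_inl, Sum.elim_inr, ite_self]
  · rw [Matrix.one_apply]
  · rw [E_rows A (pR A d) (fun l => pt d (Sum.inr l)) fun l j => rfl]
  · rfl
  · rw [Matrix.smul_apply]
    unfold pT
    rw [Matrix.of_apply, smul_eq_mul]
    ring

/-- the frame of the Deligne splitting -/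
def eF : Matrix (RI g n s) (RI g n s) ℂ := un A (pI A d) (pR A d) (pT A d)

theorem hm_skew : hm A Complex.I * OmM A + OmM A * (hm A Complex.I)ᵀ = 0 := by
  ext j k
  rw [Matrix.add_apply, Matrix.zero_apply]
  have h1 := E_rows A (hm A Complex.I) (fun j => Complex.I • A.lam j) (fun i j => rfl) k j
  rw [Matrix.transpose_apply] at h1
  have h2 := E_rows A (hm A Complex.I) (fun j => Complex.I • A.lam j) (fun i j => rfl) j k
  rw [Matrix.transpose_apply] at h2
  have h3 : (OmM A * (hm A Complex.I)ᵀ) j k = -(hm A Complex.I * OmM A) k j := by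
    have h4 : (OmM A * (hm A Complex.I)ᵀ) = (hm A Complex.I * (OmM A)ᵀ)ᵀ := by
      rw [Matrix.transpose_mul, Matrix.transpose_transpose]
    rw [h4, om_antiM, Matrix.mul_neg, Matrix.transpose_neg, Matrix.neg_apply,
      Matrix.transpose_apply]
  rw [h3, h1, h2, (A.E_I _ _).2, A.E_anti]
  push_cast
  ring

theorem XW_eF : XW A d * eF A d = eF A d * bm 1 0 2 0 0 0 := by
  unfold eF
  rw [XW_bm, un_eq, bm_mul, bm_mul]
  congr 1
  · rw [Matrix.one_mul, Matrix.mul_zero, zero_add, one_smul, two_smul]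
  · ring
  · rw [Matrix.mul_one, zero_smul, smul_zero]
  · simp only [Matrix.mul_zero, zero_add, one_smul, smul_zero, zero_smul, add_zero, smul_add,
      smul_smul]
    rw [mul_inv_cancel₀ two_ne_zero, one_smul, zero_mul, zero_smul, one_mul]
    abel
  · ring

theorem XJ_eF : XJ A d * eF A d = eF A d * bm (hm A Complex.I) 0 0 0 0 0 := by
  have hs := hm_skew A
  unfold eF
  rw [XJ_bm, un_eq, bm_mul, bm_mul]
  congr 1
  · rw [Matrix.one_mul, Matrix.mul_one]
  · rw [Matrix.mul_zero, zero_smul, add_zero, one_smul]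
    have h1 : hm A Complex.I * (pR A d * OmM A)ᵀ + (pR A d * hm A Complex.I * OmM A)ᵀ =
        (pR A d * (OmM A * (hm A Complex.I)ᵀ + hm A Complex.I * OmM A))ᵀ := by
      rw [Matrix.mul_add, Matrix.transpose_add]
      simp only [Matrix.transpose_mul, Matrix.transpose_transpose, Matrix.mul_assoc]
    rw [h1, add_comm, hs, Matrix.mul_zero, Matrix.transpose_zero]
  · ring
  · rw [Matrix.mul_one, zero_smul, add_zero, smul_zero, add_zero]
  · simp only [Matrix.mul_zero, zero_add, one_smul, smul_zero, zero_smul, add_zero]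
    ext i l
    rw [Matrix.add_apply, Matrix.zero_apply, Matrix.of_apply]
    rw [E_rows2 A (pR A d) (pI A d * hm A Complex.I) (fun l => pt d (Sum.inr l))
      (fun i => Complex.I • pt d (Sum.inl i)) (fun _ _ => rfl) (fun i j => (repr_I A _ j)), (A.E_I _ _).2]
    push_cast
    ring
  · ring

end frame

end Pool.Agent.T6.H14.UG
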