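import Pool.Agent.T6.H14.UG.Mem

set_option autoImplicit false
set_option linter.unusedSectionVars false
set_option linter.unusedSimpArgs false

/-!
# The Mumford-Tate group and the unipotent part
-/

open Module Function TensorProduct Matrix

noncomputable section

namespace Pool.Agent.T6.H14.UG

open Pool.Agent.Y102 Pool.Agent.W516.DR Pool.Agent.H204R3.GP Pool.Agent.W516.KC
  Pool.Agent.H204R3.SP Pool.Agent.TH119.MX Pool.Agent.R917.OM Pool.Agent.R917.BX
  Pool.Agent.R917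

/-! ### Composition of polynomials -/

section comp

variable {R : Type} [Fintype R] [DecidableEq R]

theorem RP.comp {f : Matrix R R ℂ → ℂ} {F : Matrix R R ℂ → Matrix R R ℂ} (hf : RP f)
    (hF : RPM F) : RP fun M => f (F M) := by
  obtain ⟨p, hp⟩ := hf
  choose q hq using hF
  refine ⟨MvPolynomial.bind₁ (fun b : R × R => q b.1 b.2) p, fun M => ?_⟩
  rw [MvPolynomial.aeval_bind₁]
  change f (F M) = _
  rw [hp]
  congr 2
  funext b
  exact hq b.1 b.2 M

theorem AS.comp {S : Set (Matrix R R ℂ)} {F : Matrix R R ℂ → Matrix R R ℂ} (hS : AS S)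
    (hF : RPM F) : AS {M | F M ∈ S} := by
  obtain ⟨I, hI⟩ := hS
  have h1 : ∀ p : I, AS {M : Matrix R R ℂ |
      MvPolynomial.aeval (fun b : R × R => F M b.1 b.2) p.1 = 0} := by
    intro p
    have h2 : RP fun M : Matrix R R ℂ => MvPolynomial.aeval (fun b : R × R => M b.1 b.2) p.1 :=
      ⟨p.1, fun M => rfl⟩
    exact AS.eq (RP.comp h2 hF) RP.zero
  have h2 := AS.all h1
  have h3 : {M | F M ∈ S} = {M : Matrix R R ℂ | ∀ p : I, M ∈ {M : Matrix R R ℂ |
      MvPolynomial.aeval (fun b : R × R => F M b.1 b.2) p.1 = 0}} := by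
    ext M
    change F M ∈ S ↔ ∀ p : I, MvPolynomial.aeval (fun b : R × R => F M b.1 b.2) p.1 = 0
    rw [hI]
    exact ⟨fun h p => h p.1 p.2, fun h p hp => h ⟨p, hp⟩⟩
  rw [h3]
  exact h2

end comp

variable {g : ℕ} {A : AbVarG g} {n s : ℕ} {d : Dt g n s}
  {H : Set (Matrix (RI g n s) (RI g n s) ℂ)}

/-! ### The Deligne torus -/

theorem vecMul_bm_inl (v : RI g n s → ℂ) (X : Matrix (Fin (2 * g)) (Fin (2 * g)) ℂ)
    (y : Matrix (Fin (2 * g)) (Fin s) ℂ) (a : ℂ) (z : Matrix (Fin n) (Fin (2 * g)) ℂ)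
    (t : Matrix (Fin n) (Fin s) ℂ) (b : ℂ) (j : Fin (2 * g)) :
    (v ᵥ* bm X y a z t b) (Sum.inl j) =
      ∑ k, v (Sum.inl k) * X k j + ∑ i, v (Sum.inr (Sum.inr i)) * z i j := by
  simp only [Matrix.vecMul, dotProduct, Fintype.sum_sum_type]
  simp [bm]

theorem vecMul_bm_inr (v : RI g n s → ℂ) (X : Matrix (Fin (2 * g)) (Fin (2 * g)) ℂ)
    (y : Matrix (Fin (2 * g)) (Fin s) ℂ) (a : ℂ) (z : Matrix (Fin n) (Fin (2 * g)) ℂ)
    (t : Matrix (Fin n) (Fin s) ℂ) (b : ℂ) (l : Fin s) :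
    (v ᵥ* bm X y a z t b) (Sum.inr (Sum.inl l)) =
      ∑ k, v (Sum.inl k) * y k l + (v (Sum.inr (Sum.inl l)) * a +
        ∑ i, v (Sum.inr (Sum.inr i)) * t i l) := by
  simp only [Matrix.vecMul, dotProduct, Fintype.sum_sum_type]
  simp [bm]

theorem vecMul_bm_inrr (v : RI g n s → ℂ) (X : Matrix (Fin (2 * g)) (Fin (2 * g)) ℂ)
    (y : Matrix (Fin (2 * g)) (Fin s) ℂ) (a : ℂ) (z : Matrix (Fin n) (Fin (2 * g)) ℂ)
    (t : Matrix (Fin n) (Fin s) ℂ) (b : ℂ) (i : Fin n) :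
    (v ᵥ* bm X y a z t b) (Sum.inr (Sum.inr i)) = v (Sum.inr (Sum.inr i)) * b := by
  simp only [Matrix.vecMul, dotProduct, Fintype.sum_sum_type]
  simp [bm]

theorem bZ_eig {A : AbVar g} {y : RI g n s → ℂ} {a b : ℂ}
    (h1 : y ᵥ* bm (1 : Matrix (Fin (2 * g)) (Fin (2 * g)) ℂ) 0 2 0 0 0 = a • y)
    (h2 : y ᵥ* bm (hm A Complex.I) 0 0 0 0 0 = b • y) (z : ℂ) :
    (a = 0 → y ᵥ* bZ A n s z = y) ∧
    (a = 1 → y ᵥ* bZ A n s z = ((z.re : ℂ) + z.im * b) • y) ∧
    (a = 2 → y ᵥ* bZ A n s z = (z * (starRingEnd ℂ) z) • y) := by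
  have e1 : ∀ j, y (Sum.inl j) = a * y (Sum.inl j) := by
    intro j
    have h3 := congrFun h1 (Sum.inl j)
    rw [vecMul_bm_inl] at h3
    simpa [Matrix.one_apply] using h3
  have e2 : ∀ l, y (Sum.inr (Sum.inl l)) * 2 = a * y (Sum.inr (Sum.inl l)) := by
    intro l
    have h3 := congrFun h1 (Sum.inr (Sum.inl l))
    rw [vecMul_bm_inr] at h3
    simpa using h3
  have e3 : ∀ i, 0 = a * y (Sum.inr (Sum.inr i)) := by
    intro i
    have h3 := congrFun h1 (Sum.inr (Sum.inr i))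
    rw [vecMul_bm_inrr, mul_zero] at h3
    exact h3
  have e4 : ∀ j, ∑ k, y (Sum.inl k) * hm A Complex.I k j = b * y (Sum.inl j) := by
    intro j
    have h3 := congrFun h2 (Sum.inl j)
    rw [vecMul_bm_inl] at h3
    simpa using h3
  have e5 : ∀ j, (y ᵥ* bZ A n s z) (Sum.inl j) = (z.re : ℂ) * y (Sum.inl j) +
      (z.im : ℂ) * (b * y (Sum.inl j)) := by
    intro j
    unfold bZ
    rw [vecMul_bm_inl, hm_eq]
    simp only [Matrix.add_apply, Matrix.smul_apply, smul_eq_mul, mul_add, Finset.sum_add_distrib,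
      Matrix.zero_apply, mul_zero, Finset.sum_const_zero, add_zero]
    rw [← e4, Finset.mul_sum]
    congr 1
    · simp [Matrix.one_apply, mul_comm]
    · exact Finset.sum_congr rfl fun k _ => by ring
  have e6 : ∀ l, (y ᵥ* bZ A n s z) (Sum.inr (Sum.inl l)) =
      y (Sum.inr (Sum.inl l)) * (z * (starRingEnd ℂ) z) := by
    intro l
    unfold bZ
    rw [vecMul_bm_inr]
    simp
  have e7 : ∀ i, (y ᵥ* bZ A n s z) (Sum.inr (Sum.inr i)) = y (Sum.inr (Sum.inr i)) := by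
    intro i
    unfold bZ
    rw [vecMul_bm_inrr, mul_one]
  refine ⟨fun ha => ?_, fun ha => ?_, fun ha => ?_⟩
  · funext r
    rcases r with j | l | i
    · have h3 := e1 j
      rw [ha, zero_mul] at h3
      rw [e5, h3]
      ring
    · have h3 := e2 l
      rw [ha, zero_mul] at h3
      have h4 : y (Sum.inr (Sum.inl l)) = 0 := by
        rcases mul_eq_zero.1 h3 with h | h
        · exact h
        · norm_num at h
      rw [e6, h4, zero_mul]
    · rw [e7]
  · funext r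
    rw [Pi.smul_apply, smul_eq_mul]
    rcases r with j | l | i
    · rw [e5]
      ring
    · have h3 := e2 l
      rw [ha, one_mul] at h3
      have h4 : y (Sum.inr (Sum.inl l)) = 0 := by linear_combination h3
      rw [e6, h4, zero_mul, mul_zero]
    · have h3 := e3 i
      rw [ha, one_mul] at h3
      rw [e7, ← h3, mul_zero]
  · funext r
    rw [Pi.smul_apply, smul_eq_mul]
    rcases r with j | l | i
    · have h3 := e1 j
      rw [ha] at h3
      have h4 : y (Sum.inl j) = 0 := by linear_combination -h3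
      rw [e5, h4]
      ring
    · rw [e6, mul_comm]
    · have h3 := e3 i
      rw [ha] at h3
      have h4 : y (Sum.inr (Sum.inr i)) = 0 := by linear_combination (-1 / 2 : ℂ) * h3
      rw [e7, h4, mul_zero]

/-- the frame -/
def eT (A : AbVar g) (d : Dt g n s) (w : (Fin n ⊕ Fin s) → A.H1) (τ : Fin n → Fin s → ℚ) :
    Matrix (RI g n s) (RI g n s) ℂ :=
  un A (pI A (fd w d)) (pR A (fd w d)) (pT A (fd w d) - tM τ)

/-- the inverse -/
def eI (A : AbVar g) (d : Dt g n s) (w : (Fin n ⊕ Fin s) → A.H1) (τ : Fin n → Fin s → ℚ) :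
    Matrix (RI g n s) (RI g n s) ℂ :=
  un A (-pI A (fd w d)) (-pR A (fd w d)) (-(pT A (fd w d) - tM τ))

theorem kF_eT (A : AbVar g) (d : Dt g n s) (w : (Fin n ⊕ Fin s) → A.H1)
    (τ : Fin n → Fin s → ℚ) : kF A w τ * eT A d w τ = un A (zI w) (zR w) 0 * eF A (fd w d) := by
  unfold kF eT eF
  rw [un_mul, un_mul, add_sub_cancel, zero_add]

theorem frame_XW (A : AbVar g) (d : Dt g n s) (w : (Fin n ⊕ Fin s) → A.H1)
    (τ : Fin n → Fin s → ℚ) : XW A d * (kF A w τ * eT A d w τ) =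
      kF A w τ * eT A d w τ * bm 1 0 2 0 0 0 := by
  rw [kF_eT, ← Matrix.mul_assoc, ← XW_frame, Matrix.mul_assoc, XW_eF, Matrix.mul_assoc]

theorem frame_XJ (A : AbVar g) (d : Dt g n s) (w : (Fin n ⊕ Fin s) → A.H1)
    (τ : Fin n → Fin s → ℚ) : XJ A d * (kF A w τ * eT A d w τ) =
      kF A w τ * eT A d w τ * bm (hm A Complex.I) 0 0 0 0 0 := by
  rw [kF_eT, ← Matrix.mul_assoc, ← XJ_frame, Matrix.mul_assoc, XJ_eF, Matrix.mul_assoc]

/-- the element of the Deligne torus -/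
def dM (A : AbVar g) (d : Dt g n s) (w : (Fin n ⊕ Fin s) → A.H1) (τ : Fin n → Fin s → ℚ) (z : ℂ) :
    Matrix (RI g n s) (RI g n s) ℂ :=
  kF A w τ * eT A d w τ * bZ A n s z * (eI A d w τ * kI A w τ)

theorem dM_eig (A : AbVar g) (d : Dt g n s) (w : (Fin n ⊕ Fin s) → A.H1)
    (τ : Fin n → Fin s → ℚ) (z : ℂ) {v : RI g n s → ℂ} {a b : ℂ}
    (h1 : v ᵥ* XW A d = a • v) (h2 : v ᵥ* XJ A d = b • v) :
    (a = 0 → v ᵥ* dM A d w τ z = v) ∧
    (a = 1 → v ᵥ* dM A d w τ z = ((z.re : ℂ) + z.im * b) • v) ∧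
    (a = 2 → v ᵥ* dM A d w τ z = (z * (starRingEnd ℂ) z) • v) := by
  obtain ⟨y, hy⟩ : ∃ y, y = v ᵥ* (kF A w τ * eT A d w τ) := ⟨_, rfl⟩
  have hv : y ᵥ* (eI A d w τ * kI A w τ) = v := by
    rw [hy, Matrix.vecMul_vecMul]
    have h3 : kF A w τ * eT A d w τ * (eI A d w τ * kI A w τ) = 1 := by
      rw [Matrix.mul_assoc, ← Matrix.mul_assoc (eT A d w τ)]
      unfold eT eI
      rw [un_inv, Matrix.one_mul, kF_kI]
    rw [h3, Matrix.vecMul_one]
  have e1 : y ᵥ* bm (1 : Matrix (Fin (2 * g)) (Fin (2 * g)) ℂ) 0 2 0 0 0 = a • y := by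
    rw [hy, Matrix.vecMul_vecMul, ← frame_XW, ← Matrix.vecMul_vecMul, h1, Matrix.smul_vecMul]
  have e2 : y ᵥ* bm (hm A Complex.I) 0 0 0 0 0 = b • y := by
    rw [hy, Matrix.vecMul_vecMul, ← frame_XJ, ← Matrix.vecMul_vecMul, h2, Matrix.smul_vecMul]
  obtain ⟨h3, h4, h5⟩ := bZ_eig e1 e2 z
  have h6 : v ᵥ* dM A d w τ z = (y ᵥ* bZ A n s z) ᵥ* (eI A d w τ * kI A w τ) := by
    unfold dM
    rw [hy, Matrix.vecMul_vecMul, Matrix.vecMul_vecMul]
    simp only [Matrix.mul_assoc]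
  rw [h6]
  refine ⟨fun ha => ?_, fun ha => ?_, fun ha => ?_⟩
  · rw [h3 ha, hv]
  · rw [h4 ha, Matrix.smul_vecMul, hv]
  · rw [h5 ha, Matrix.smul_vecMul, hv]

/-! ### The group -/

/-- The group which is given by the unipotent part, in the original frame. -/
def GU (h : Lg (gg A.toAbVar n s H) d) (u : UD (gg A.toAbVar n s H) d) (τ : Fin n → Fin s → ℚ) :
    Set (Matrix (RI g n s) (RI g n s) ℂ) :=
  {M | kI A.toAbVar u.w τ * M * kF A.toAbVar u.w τ ∈ (dt h u).G}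

section GU

variable (h : Lg (gg A.toAbVar n s H) d) (u : UD (gg A.toAbVar n s H) d) (τ : Fin n → Fin s → ℚ)

theorem GU_one : (1 : Matrix (RI g n s) (RI g n s) ℂ) ∈ GU h u τ := by
  change kI A.toAbVar u.w τ * 1 * kF A.toAbVar u.w τ ∈ (dt h u).G
  rw [Matrix.mul_one, kI_kF]
  exact Dat.one_mem _

theorem GU_mul {M M' : Matrix (RI g n s) (RI g n s) ℂ} (hM : M ∈ GU h u τ) (hM' : M' ∈ GU h u τ) :
    M * M' ∈ GU h u τ := by
  have h1 := Dat.mul_mem _ hM hM'
  have h2 : kI A.toAbVar u.w τ * M * kF A.toAbVar u.w τ *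
      (kI A.toAbVar u.w τ * M' * kF A.toAbVar u.w τ) =
      kI A.toAbVar u.w τ * (M * M') * kF A.toAbVar u.w τ := by
    have h3 := kF_kI A.toAbVar u.w τ
    calc _ = kI A.toAbVar u.w τ * M * (kF A.toAbVar u.w τ * kI A.toAbVar u.w τ) * M' *
        kF A.toAbVar u.w τ := by simp only [Matrix.mul_assoc]
      _ = _ := by rw [h3, Matrix.mul_one]; simp only [Matrix.mul_assoc]
  rw [h2] at h1
  exact h1

theorem GU_inv {M M' : Matrix (RI g n s) (RI g n s) ℂ} (hM : M ∈ GU h u τ) (h1 : M * M' = 1) :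
    M' ∈ GU h u τ := by
  obtain ⟨M'', h2, h3⟩ := Dat.inv_mem _ hM
  have h4 : kI A.toAbVar u.w τ * M' * kF A.toAbVar u.w τ = M'' := by
    have h5 : (kI A.toAbVar u.w τ * M' * kF A.toAbVar u.w τ) *
        (kI A.toAbVar u.w τ * M * kF A.toAbVar u.w τ) = 1 := by
      have h6 := kF_kI A.toAbVar u.w τ
      have h7 : M' * M = 1 := mul_eq_one_comm.1 h1
      calc _ = kI A.toAbVar u.w τ * M' * (kF A.toAbVar u.w τ * kI A.toAbVar u.w τ) * M *
          kF A.toAbVar u.w τ := by simp only [Matrix.mul_assoc]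
        _ = kI A.toAbVar u.w τ * (M' * M) * kF A.toAbVar u.w τ := by
          rw [h6, Matrix.mul_one]
          simp only [Matrix.mul_assoc]
        _ = 1 := by rw [h7, Matrix.mul_one, kI_kF]
    calc _ = (kI A.toAbVar u.w τ * M' * kF A.toAbVar u.w τ) *
        ((kI A.toAbVar u.w τ * M * kF A.toAbVar u.w τ) * M'') := by rw [h3, Matrix.mul_one]
      _ = M'' := by rw [← Matrix.mul_assoc, h5, Matrix.one_mul]
  change kI A.toAbVar u.w τ * M' * kF A.toAbVar u.w τ ∈ (dt h u).G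
  rw [h4]
  exact h2

theorem GU_alg : ∃ S : Set (Matrix (RI g n s) (RI g n s) ℂ), AS S ∧
    ∀ M M' : Matrix (RI g n s) (RI g n s) ℂ, M * M' = 1 → (M ∈ GU h u τ ↔ M ∈ S) := by
  refine ⟨{M | kI A.toAbVar u.w τ * M * kF A.toAbVar u.w τ ∈ {M | (dt h u).Eqs M}},
    AS.comp (dt h u).as_eqs (((RPM.const (isRatM_kI _ _ _)).mul RPM.id).mul
      (RPM.const (isRatM_kF _ _ _))), fun M M' h1 => ?_⟩
  constructor
  · exact fun h2 => (dt h u).eqs_of_mem h2
  · intro h2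
    refine (dt h u).mem_of_eqs h2 (M' := kI A.toAbVar u.w τ * M' * kF A.toAbVar u.w τ) ?_
    have h6 := kF_kI A.toAbVar u.w τ
    calc _ = kI A.toAbVar u.w τ * M * (kF A.toAbVar u.w τ * kI A.toAbVar u.w τ) * M' *
        kF A.toAbVar u.w τ := by simp only [Matrix.mul_assoc]
      _ = kI A.toAbVar u.w τ * (M * M') * kF A.toAbVar u.w τ := by
        rw [h6, Matrix.mul_one]
        simp only [Matrix.mul_assoc]
      _ = 1 := by rw [h1, Matrix.mul_one, kI_kF]

/-- Every element has the block form. -/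
theorem GU_bm {M : Matrix (RI g n s) (RI g n s) ℂ} (hM : M ∈ GU h u τ) :
    ∃ X y a z t, (IsEmpty (Fin s) → a = 1) ∧ M = bm X y a z t 1 ∧
      ∃ Zi Zr T, (dt h u).Mem X a Zi Zr T ∧
        M = kF A.toAbVar u.w τ * pm (OmM A.toAbVar) X a Zi Zr T * kI A.toAbVar u.w τ := by
  obtain ⟨X, a, Zi, Zr, T, h1, h2⟩ := hM
  have h3 : M = kF A.toAbVar u.w τ * pm (OmM A.toAbVar) X a Zi Zr T * kI A.toAbVar u.w τ := by
    have h4 : pm (OmM A.toAbVar) X a Zi Zr T = pm (dt h u).Om X a Zi Zr T := rfl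
    rw [h4, ← h2]
    have h6 := kF_kI A.toAbVar u.w τ
    calc M = (kF A.toAbVar u.w τ * kI A.toAbVar u.w τ) * M *
        (kF A.toAbVar u.w τ * kI A.toAbVar u.w τ) := by rw [h6, Matrix.one_mul, Matrix.mul_one]
      _ = _ := by simp only [Matrix.mul_assoc]
  have h4 := h3
  unfold kF kI at h4
  rw [un_eq, un_eq] at h4
  unfold pm at h4
  rw [bm_mul, bm_mul] at h4
  simp only [Matrix.one_mul, Matrix.mul_one, one_mul, mul_one, one_smul] at h4
  exact ⟨_, _, _, _, _, h1.a1, h4, Zi, Zr, T, h1, h3⟩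

end GU

/-- **The theorem.** -/
theorem main (hpt : PtM A.toAbVar d H) (hd : Good A d)
    {K₁ : IntermediateField ℚ ℂ} [FiniteDimensional ℚ K₁]
    (hu : ∀ p (m : ℕ), IsRat A.toAbVar K₁ (m • pt d p)) :
    ∃ (h : Lg (gg A.toAbVar n s H) d) (u : UD (gg A.toAbVar n s H) d) (τ : Fin n → Fin s → ℚ),
      (∀ z : ℂ, z ≠ 0 → dM A.toAbVar d u.w τ z ∈ GU h u τ) ∧
      ∀ (y : Matrix (Fin (2 * g)) (Fin s) ℂ) (z : Matrix (Fin n) (Fin (2 * g)) ℂ)
        (t : Matrix (Fin n) (Fin s) ℂ) (c : ℂ), c ≠ 0 →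
        bm (c • (1 : Matrix (Fin (2 * g)) (Fin (2 * g)) ℂ)) y (c ^ 2) z t 1 ∈ GU h u τ →
          bm (c • (1 : Matrix (Fin (2 * g)) (Fin (2 * g)) ℂ)) y (c ^ 2) z t 1 ∈ H := by
  have h := gg_Lg hpt
  obtain ⟨u⟩ := main2 h hu
  obtain ⟨W, hW, hW1, hW2⟩ := Pool.Agent.R917.DT.weight hpt
  refine ⟨h, u, tau0 u W, fun z hz => ?_, fun y z t c hc hM => ?_⟩
  · have hE : eT A.toAbVar d u.w (tau0 u W) ∈ (dt h u).G := by
      refine ⟨1, 1, _, _, _, ⟨⟨1, by rw [Matrix.one_mul], by rw [Matrix.one_mul]⟩, one_ne_zero,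
        fun _ => rfl, fun _ => by simp, fun p i => by rw [Matrix.one_mul, Matrix.mul_one],
        fun p i => by rw [Matrix.one_mul, Matrix.mul_one], vc_pt u, fun φ => ?_⟩, rfl⟩
      obtain ⟨ρ, hρ⟩ := phi_levi' (map_Lg u.w h) (φ := φ.1) (fun t ht => φ.2 t (by
        rwa [tt_map] at ht)) (u.hBmap h φ.1 fun t ht => φ.2 t (by rwa [tt_map] at ht))
      have h1 := u.sum_W (sym_of_phi h φ.2) (u.Lm_rel h hd φ.2 hρ)
      have h2 := tau0_rho u hW hW2 hρ
      have h3 := phi_eq φ.1 (tau0 u W)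
      rw [h2] at h3
      have h4 := congrArg (fun q : ℚ => (q : ℂ)) h3
      push_cast at h4
      change lf (Matrix.of (mC φ.1)) (pT A.toAbVar (fd u.w d) - tM (tau0 u W)) = 0
      rw [lf_sub]
      have h5 : lf (Matrix.of (mC φ.1)) (tM (tau0 u W)) = (ρ : ℂ) := by
        rw [h4]
        rfl
      have h6 : lf (Matrix.of (mC φ.1)) (pT A.toAbVar (fd u.w d)) = (ρ : ℂ) := by
        have h7 : (2 : ℂ) * lf (Matrix.of (mC φ.1)) (pT A.toAbVar (fd u.w d)) = 2 * (ρ : ℂ) := by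
          rw [← h1]
          unfold lf
          rw [Finset.mul_sum, Finset.mul_sum, ← Finset.sum_add_distrib]
          refine Finset.sum_congr rfl fun i _ => ?_
          rw [Finset.mul_sum, Finset.mul_sum, ← Finset.sum_add_distrib]
          refine Finset.sum_congr rfl fun l _ => ?_
          change 2 * (mC φ.1 i l * (kap A.toAbVar (fd u.w d) i l + 2⁻¹ *
            ((A.E ((pt d - Pe u.w) (Sum.inr l)) ((pt d - Pe u.w) (Sum.inl i)) : ℝ) : ℂ))) = _
          ring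
        exact mul_left_cancel₀ two_ne_zero h7
      rw [h5, h6, sub_self]
    obtain ⟨E', hE', h1⟩ := Dat.inv_mem _ hE
    have h2 : eI A.toAbVar d u.w (tau0 u W) = E' := by
      have h3 : eI A.toAbVar d u.w (tau0 u W) * eT A.toAbVar d u.w (tau0 u W) = 1 := un_inv' _ _ _
      calc _ = eI A.toAbVar d u.w (tau0 u W) * (eT A.toAbVar d u.w (tau0 u W) * E') := by
            rw [h1, Matrix.mul_one]
        _ = E' := by rw [← Matrix.mul_assoc, h3, Matrix.one_mul]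
    have h3 : kI A.toAbVar u.w (tau0 u W) * dM A.toAbVar d u.w (tau0 u W) z *
        kF A.toAbVar u.w (tau0 u W) = eT A.toAbVar d u.w (tau0 u W) * bZ A.toAbVar n s z *
          eI A.toAbVar d u.w (tau0 u W) := by
      have h4 := kI_kF A.toAbVar u.w (tau0 u W)
      unfold dM
      calc _ = (kI A.toAbVar u.w (tau0 u W) * kF A.toAbVar u.w (tau0 u W)) *
          (eT A.toAbVar d u.w (tau0 u W) * bZ A.toAbVar n s z *
          eI A.toAbVar d u.w (tau0 u W)) *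
          (kI A.toAbVar u.w (tau0 u W) * kF A.toAbVar u.w (tau0 u W)) := by
            simp only [Matrix.mul_assoc]
        _ = _ := by rw [h4, Matrix.one_mul, Matrix.mul_one]
    change kI A.toAbVar u.w (tau0 u W) * dM A.toAbVar d u.w (tau0 u W) z *
        kF A.toAbVar u.w (tau0 u W) ∈ (dt h u).G
    rw [h3, h2]
    exact Dat.mul_mem _ (Dat.mul_mem _ hE (bZ_mem h u hz)) hE'
  · obtain ⟨X, y', a, z', t', ha1, h1, Zi, Zr, T, hmem, h2⟩ := GU_bm h u _ hM
    have hX : X = c • 1 := by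
      have h3 := congrArg Dat.mX h1
      rw [Dat.mX_bm, Dat.mX_bm] at h3
      exact h3.symm
    have ha : ∀ _ : Fin s, a = c ^ 2 := by
      intro l
      have h3 := congrFun (congrFun h1 (Sum.inr (Sum.inl l))) (Sum.inr (Sum.inl l))
      simp [bm] at h3
      exact h3.symm
    have h4 : pm (OmM A.toAbVar) X a Zi Zr T = bL g n s c * un A.toAbVar Zi Zr T := by
      have h5 : bL g n s c = bm X 0 a 0 0 1 := by
        unfold bL
        rw [hX]
        exact bm_a fun l => (ha l).symm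
      rw [h5, un_eq, bm_mul]
      unfold pm
      simp only [Matrix.mul_one, mul_one, Matrix.zero_mul, zero_add, one_smul, smul_zero,
        add_zero]
    rw [h2, h4]
    have h5 : kF A.toAbVar u.w (tau0 u W) * (bL g n s c * un A.toAbVar Zi Zr T) *
        kI A.toAbVar u.w (tau0 u W) =
        (kF A.toAbVar u.w (tau0 u W) * bL g n s c * kI A.toAbVar u.w (tau0 u W)) *
        (kF A.toAbVar u.w (tau0 u W) * un A.toAbVar Zi Zr T * kI A.toAbVar u.w (tau0 u W)) := by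
      have h6 := kI_kF A.toAbVar u.w (tau0 u W)
      symm
      calc _ = kF A.toAbVar u.w (tau0 u W) * bL g n s c *
          (kI A.toAbVar u.w (tau0 u W) * kF A.toAbVar u.w (tau0 u W)) * un A.toAbVar Zi Zr T *
          kI A.toAbVar u.w (tau0 u W) := by simp only [Matrix.mul_assoc]
        _ = _ := by rw [h6, Matrix.mul_one]; simp only [Matrix.mul_assoc]
    rw [h5]
    exact hpt.grp.mul _ (bL_mem_H hpt u hW hW1 hW2 hc) _
      (un_mem_H hpt u _ hmem.v fun φ hφ => hmem.t ⟨φ, hφ⟩)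

end Pool.Agent.T6.H14.UG
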