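import Pool.Agent.T6.H14.UG.Gp
import Pool.Agent.R917.DT.Stb

set_option autoImplicit false
set_option linter.unusedSectionVars false
set_option linter.unusedSimpArgs false

/-!
# Frames of the Betti realization of a 1-motive
-/

open Module Function TensorProduct Matrix

noncomputable section

namespace Pool.Agent.T6.H14.UG

open Pool.Agent.Y102 Pool.Agent.W516.DR Pool.Agent.H204R3.GP Pool.Agent.W516.KC
  Pool.Agent.H204R3.SP Pool.Agent.TH119.MX Pool.Agent.R917.OM Pool.Agent.R917.BX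
  Pool.Agent.R917

variable {g : ℕ} {n s : ℕ}

/-! ### The matrix of the form -/

section form

variable (A : AbVar g)

/-- the matrix of the polarization -/
def OmQ : Matrix (Fin (2 * g)) (Fin (2 * g)) ℚ := Matrix.of fun k j => A.om (eb A k) (eb A j)

/-- the complex matrix of the polarization -/
def OmM : Matrix (Fin (2 * g)) (Fin (2 * g)) ℂ := (OmQ A).map (algebraMap ℚ ℂ)

theorem omQ_det : (OmQ A).det ≠ 0 := by
  intro h
  obtain ⟨v, hv, h2⟩ := Matrix.exists_vecMul_eq_zero_iff.2 h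
  apply hv
  refine A.om_nondeg (u := v) fun y => ?_
  have h1 : ∀ j, A.om v (eb A j) = 0 := by
    intro j
    have h3 := congrFun h2 j
    rw [Pi.zero_apply] at h3
    rw [← h3]
    have h4 := lin_sum (A := A) ((A.om.flip) (eb A j)) v
    rw [LinearMap.flip_apply] at h4
    rw [h4]
    simp only [Matrix.vecMul, dotProduct, OmQ, Matrix.of_apply, LinearMap.flip_apply, smul_eq_mul]
  rw [lin_sum (A := A) (A.om v) y]
  refine Finset.sum_eq_zero fun j _ => ?_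
  rw [h1, smul_zero]

/-- the inverse -/
def OmI : Matrix (Fin (2 * g)) (Fin (2 * g)) ℂ := (OmQ A)⁻¹.map (algebraMap ℚ ℂ)

theorem om_inv1 : OmM A * OmI A = 1 := by
  unfold OmM OmI
  rw [← Matrix.map_mul, Matrix.mul_nonsing_inv _ (isUnit_iff_ne_zero.2 (omQ_det A)),
    Matrix.map_one _ (map_zero _) (map_one _)]

theorem om_inv2 : OmI A * OmM A = 1 := by
  unfold OmM OmI
  rw [← Matrix.map_mul, Matrix.nonsing_inv_mul _ (isUnit_iff_ne_zero.2 (omQ_det A)),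
    Matrix.map_one _ (map_zero _) (map_one _)]

theorem omM_apply (k j : Fin (2 * g)) : OmM A k j = ((A.om (eb A k) (eb A j) : ℚ) : ℂ) := rfl

theorem omM_E (k j : Fin (2 * g)) : OmM A k j = ((A.E (A.lam k) (A.lam j) : ℝ) : ℂ) := by
  rw [omM_apply, ← per_ebA, ← per_ebA, ← A.om_coe]
  norm_cast

theorem om_antiM : (OmM A)ᵀ = -OmM A := by
  ext k j
  rw [Matrix.transpose_apply, Matrix.neg_apply, omM_apply, omM_apply, om_anti]
  push_cast
  rfl

theorem isRatM_map {I J : Type} (M : Matrix I J ℚ) : IsRatM (M.map (algebraMap ℚ ℂ)) :=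
  fun i j => ⟨M i j, rfl⟩

/-- the form of the rows -/
theorem om_rows {I : Type} (Z : Matrix I (Fin (2 * g)) ℂ) (x : I → A.H1)
    (h : ∀ i j, Z i j = (x i j : ℂ)) (j : Fin (2 * g)) (i : I) :
    (Z * OmM A)ᵀ j i = ((A.om (x i) (eb A j) : ℚ) : ℂ) := by
  rw [Matrix.transpose_apply, Matrix.mul_apply]
  have h4 := lin_sum (A := A) ((A.om.flip) (eb A j)) (x i)
  rw [LinearMap.flip_apply] at h4
  rw [h4]
  push_cast
  refine Finset.sum_congr rfl fun k _ => ?_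
  rw [h, omM_apply, LinearMap.flip_apply, smul_eq_mul]
  push_cast
  rfl

theorem om_rows2 {I I' : Type} (Z : Matrix I (Fin (2 * g)) ℂ) (Z' : Matrix I' (Fin (2 * g)) ℂ)
    (x : I → A.H1) (x' : I' → A.H1) (h : ∀ i j, Z i j = (x i j : ℂ))
    (h' : ∀ i j, Z' i j = (x' i j : ℂ)) (i' : I') (i : I) :
    (Z' * (Z * OmM A)ᵀ) i' i = ((A.om (x i) (x' i') : ℚ) : ℂ) := by
  rw [Matrix.mul_apply]
  rw [lin_sum (A := A) (A.om (x i)) (x' i')]
  push_cast
  refine Finset.sum_congr rfl fun k _ => ?_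
  rw [h', om_rows A Z x h, smul_eq_mul]
  push_cast
  rfl

/-- the form of the rows, for real vectors -/
theorem E_rows {I : Type} (Z : Matrix I (Fin (2 * g)) ℂ) (x : I → Fin g → ℂ)
    (h : ∀ i j, Z i j = ((A.lam.repr (x i) j : ℝ) : ℂ)) (j : Fin (2 * g)) (i : I) :
    (Z * OmM A)ᵀ j i = ((A.E (x i) (A.lam j) : ℝ) : ℂ) := by
  rw [Matrix.transpose_apply, Matrix.mul_apply]
  conv_rhs => rw [← A.lam.sum_repr (x i)]
  rw [map_sum, LinearMap.sum_apply, Complex.ofReal_sum]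
  refine Finset.sum_congr rfl fun k _ => ?_
  rw [h, omM_E, map_smul, LinearMap.smul_apply, smul_eq_mul, Complex.ofReal_mul]

theorem E_rows2 {I I' : Type} (Z : Matrix I (Fin (2 * g)) ℂ) (Z' : Matrix I' (Fin (2 * g)) ℂ)
    (x : I → Fin g → ℂ) (x' : I' → Fin g → ℂ)
    (h : ∀ i j, Z i j = ((A.lam.repr (x i) j : ℝ) : ℂ))
    (h' : ∀ i j, Z' i j = ((A.lam.repr (x' i) j : ℝ) : ℂ)) (i' : I') (i : I) :
    (Z' * (Z * OmM A)ᵀ) i' i = ((A.E (x i) (x' i') : ℝ) : ℂ) := by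
  rw [Matrix.mul_apply]
  conv_rhs => rw [← A.lam.sum_repr (x' i')]
  rw [map_sum, Complex.ofReal_sum]
  refine Finset.sum_congr rfl fun k _ => ?_
  rw [h', E_rows A Z x h, map_smul, smul_eq_mul, Complex.ofReal_mul]

end form

/-! ### Tuples -/

section tup

variable {A : AbVar g}

/-- the matrix of an endomorphism, acting on rows -/
def em (X : Module.End ℚ A.H1) : Matrix (Fin (2 * g)) (Fin (2 * g)) ℂ :=
  Matrix.of fun j j' => ((X (eb A j) j' : ℚ) : ℂ)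

/-- the rows of the points -/
def zI (z : (Fin n ⊕ Fin s) → A.H1) : Matrix (Fin n) (Fin (2 * g)) ℂ :=
  Matrix.of fun i j => ((z (Sum.inl i) j : ℚ) : ℂ)

/-- the rows of the dual points -/
def zR (z : (Fin n ⊕ Fin s) → A.H1) : Matrix (Fin s) (Fin (2 * g)) ℂ :=
  Matrix.of fun l j => ((z (Sum.inr l) j : ℚ) : ℂ)

/-- the torus part -/
def tM (t : Fin n → Fin s → ℚ) : Matrix (Fin n) (Fin s) ℂ := Matrix.of fun i l => ((t i l : ℚ) : ℂ)

theorem row_em {I : Type} (Z : Matrix I (Fin (2 * g)) ℂ) (x : I → A.H1)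
    (h : ∀ i j, Z i j = (x i j : ℂ)) (X : Module.End ℚ A.H1) (i : I) (j : Fin (2 * g)) :
    (Z * em X) i j = ((X (x i) j : ℚ) : ℂ) := by
  rw [Matrix.mul_apply]
  have h1 := lin_sum (A := A) ((LinearMap.proj j : A.H1 →ₗ[ℚ] ℚ).comp X) (x i)
  simp only [LinearMap.comp_apply, LinearMap.proj_apply, smul_eq_mul] at h1
  rw [h1]
  push_cast
  refine Finset.sum_congr rfl fun k _ => ?_
  rw [h]
  rfl

theorem mt_bm (L : Tup A n s) : mt L = bm (em (op L)) (zR L.2.2.1 * OmM A)ᵀ (2 * L.2.1)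
    (zI L.2.2.1) (tM L.2.2.2) 0 := by
  ext r r'
  rcases r with j | l | i <;> rcases r' with j' | l' | i' <;>
    simp only [OM.mt, mtQ, bm, Matrix.of_apply, Matrix.map_apply, Sum.elim_inl, Sum.elim_inr, map_zero,
      ite_self]
  · rfl
  · rw [om_rows A (zR L.2.2.1) (fun l => L.2.2.1 (Sum.inr l)) (fun _ _ => rfl)]
    rfl
  · split_ifs <;> simp
  · rfl
  · rfl

/-- the change of frame -/
def un (A : AbVar g) (Zi : Matrix (Fin n) (Fin (2 * g)) ℂ) (Zr : Matrix (Fin s) (Fin (2 * g)) ℂ)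
    (T : Matrix (Fin n) (Fin s) ℂ) : Matrix (RI g n s) (RI g n s) ℂ := pm (OmM A) 1 1 Zi Zr T

theorem un_eq (Zi : Matrix (Fin n) (Fin (2 * g)) ℂ) (Zr : Matrix (Fin s) (Fin (2 * g)) ℂ)
    (T : Matrix (Fin n) (Fin s) ℂ) : un A Zi Zr T =
      bm 1 (Zr * OmM A)ᵀ 1 Zi (T + (2⁻¹ : ℂ) • (Zi * (Zr * OmM A)ᵀ)) 1 := by
  unfold un pm
  rw [Matrix.one_mul]

theorem un_mul (Zi Zi' : Matrix (Fin n) (Fin (2 * g)) ℂ) (Zr Zr' : Matrix (Fin s) (Fin (2 * g)) ℂ)
    (T T' : Matrix (Fin n) (Fin s) ℂ) : un A Zi Zr T * un A Zi' Zr' T' =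
      un A (Zi + Zi') (Zr + Zr')
        (T + T' + (2⁻¹ : ℂ) • (Zi * (Zr' * OmM A)ᵀ - Zi' * (Zr * OmM A)ᵀ)) := by
  unfold un
  rw [pm_mul (fun _ => by simp)]
  simp only [Matrix.mul_one, one_smul, mul_one]

theorem un_zero : un A (0 : Matrix (Fin n) (Fin (2 * g)) ℂ) (0 : Matrix (Fin s) (Fin (2 * g)) ℂ) 0 =
    1 := pm_one _

/-- **The change of frame of the Lie algebra.** -/
theorem un_mul_mt (w : (Fin n ⊕ Fin s) → A.H1) {L : Tup A n s}
    (h : ∀ u v, A.om (L.1 u) v + A.om u (L.1 v) = 0) :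
    un A (zI w) (zR w) 0 * mt (cj w L) = mt L * un A (zI w) (zR w) 0 := by
  rw [mt_bm, mt_bm, un_eq, bm_mul, bm_mul, op_cj]
  have hs := op_skew h
  congr 1
  · rw [Matrix.one_mul, Matrix.mul_one]
  · ext j l
    rw [Matrix.add_apply, Matrix.add_apply, Matrix.one_mul, Matrix.smul_apply, Matrix.smul_apply,
      om_rows A (zR w) (fun l => w (Sum.inr l)) (fun _ _ => rfl),
      om_rows A (zR L.2.2.1) (fun l => L.2.2.1 (Sum.inr l)) (fun _ _ => rfl),
      om_rows A (zR (cj w L).2.2.1) (fun l => (cj w L).2.2.1 (Sum.inr l)) (fun _ _ => rfl)]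
    have h1 := om_rows2 A (zR w) (em (op L)) (fun l => w (Sum.inr l)) (fun j => op L (eb A j))
      (fun _ _ => rfl) (fun _ _ => rfl) j l
    rw [h1, cj_z]
    have h2 := hs (w (Sum.inr l)) (eb A j)
    have h3 : (cj w L).2.1 = L.2.1 := rfl
    rw [h3]
    simp only [map_sub, LinearMap.sub_apply, smul_eq_mul, one_mul]
    have h4 := congrArg (fun q : ℚ => (q : ℂ)) h2
    push_cast at h4 ⊢
    linear_combination -h4
  · rw [one_mul, mul_one]
    rfl
  · ext i j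
    rw [Matrix.add_apply, Matrix.add_apply, Matrix.mul_one, Matrix.smul_apply, Matrix.smul_apply]
    rw [row_em (zI w) (fun i => w (Sum.inl i)) (fun _ _ => rfl)]
    change ((op L (w (Sum.inl i)) j : ℚ) : ℂ) + (1 : ℂ) • (((cj w L).2.2.1 (Sum.inl i) j : ℚ) : ℂ) =
      ((L.2.2.1 (Sum.inl i) j : ℚ) : ℂ) + (0 : ℂ) • _
    rw [cj_z, one_smul, zero_smul, add_zero, Pi.sub_apply]
    push_cast
    ring
  · ext i l
    have h1 : ∀ (a b : ℂ) (M1 M2 M3 : Matrix (Fin n) (Fin s) ℂ),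
        (M1 + a • M2 + b • M3) i l = M1 i l + a * M2 i l + b * M3 i l := fun a b M1 M2 M3 => rfl
    rw [h1, h1]
    rw [om_rows2 A (zR (cj w L).2.2.1) (zI w) (fun l => (cj w L).2.2.1 (Sum.inr l))
      (fun i => w (Sum.inl i)) (fun _ _ => rfl) (fun _ _ => rfl),
      om_rows2 A (zR w) (zI L.2.2.1) (fun l => w (Sum.inr l))
      (fun i => L.2.2.1 (Sum.inl i)) (fun _ _ => rfl) (fun _ _ => rfl), zero_add]
    have h2 : ((2⁻¹ : ℂ) • (zI w * (zR w * OmM A)ᵀ)) i l =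
        2⁻¹ * ((A.om (w (Sum.inr l)) (w (Sum.inl i)) : ℚ) : ℂ) := by
      rw [Matrix.smul_apply, om_rows2 A (zR w) (zI w) (fun l => w (Sum.inr l))
        (fun i => w (Sum.inl i)) (fun _ _ => rfl) (fun _ _ => rfl), smul_eq_mul]
    rw [h2]
    change _ + _ + 1 * (((cj w L).2.2.2 i l : ℚ) : ℂ) = _ + 1 * ((L.2.2.2 i l : ℚ) : ℂ) + _
    rw [cj_t, cj_z]
    have h3 : (cj w L).2.1 = L.2.1 := rfl
    have h4 := congrArg (fun q : ℚ => (q : ℂ)) (hs (w (Sum.inr l)) (w (Sum.inl i)))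
    rw [h3]
    simp only [map_sub, LinearMap.sub_apply]
    push_cast at h4 ⊢
    linear_combination (-1 / 2 : ℂ) * h4
  · simp

end tup

end Pool.Agent.T6.H14.UG
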