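import Pool.Agent.T6.H14.UG.Blk
import Pool.Agent.T6.H14.UG.Alg

set_option autoImplicit false
set_option linter.unusedSectionVars false
set_option linter.unusedSimpArgs false

/-!
# An algebraic group with a given unipotent part
-/

open Matrix

noncomputable section

namespace Pool.Agent.T6.H14.UG

variable {J S N : Type} [Fintype J] [Fintype S] [Fintype N] [DecidableEq J] [DecidableEq S]
  [DecidableEq N]

/-- a linear form on the part of weight minus two -/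
def lf (c : Matrix N S ℂ) (T : Matrix N S ℂ) : ℂ := ∑ i, ∑ l, c i l * T i l

theorem lf_add (c T T' : Matrix N S ℂ) : lf c (T + T') = lf c T + lf c T' := by
  unfold lf
  simp only [Matrix.add_apply, mul_add, Finset.sum_add_distrib]

theorem lf_smul (c : Matrix N S ℂ) (a : ℂ) (T : Matrix N S ℂ) : lf c (a • T) = a * lf c T := by
  unfold lf
  simp only [Matrix.smul_apply, smul_eq_mul, Finset.mul_sum]
  exact Finset.sum_congr rfl fun i _ => Finset.sum_congr rfl fun l _ => by ring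

theorem lf_sub (c T T' : Matrix N S ℂ) : lf c (T - T') = lf c T - lf c T' := by
  unfold lf
  simp only [Matrix.sub_apply, mul_sub, Finset.sum_sub_distrib]

theorem lf_zero (c : Matrix N S ℂ) : lf c 0 = 0 := by
  unfold lf
  simp

/-- the relations -/
def vf (fN : N → Matrix J J ℂ) (fS : S → Matrix J J ℂ) (Zi : Matrix N J ℂ) (Zr : Matrix S J ℂ) :
    J → ℂ := ∑ i, Zi i ᵥ* fN i + ∑ l, Zr l ᵥ* fS l

section vf

variable (fN : N → Matrix J J ℂ) (fS : S → Matrix J J ℂ) (Zi Zi' : Matrix N J ℂ)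
  (Zr Zr' : Matrix S J ℂ)

theorem vf_add : vf fN fS (Zi + Zi') (Zr + Zr') = vf fN fS Zi Zr + vf fN fS Zi' Zr' := by
  unfold vf
  have h1 : ∀ i, (Zi + Zi') i ᵥ* fN i = Zi i ᵥ* fN i + Zi' i ᵥ* fN i := fun i => by
    rw [← Matrix.add_vecMul]
    rfl
  have h2 : ∀ i, (Zr + Zr') i ᵥ* fS i = Zr i ᵥ* fS i + Zr' i ᵥ* fS i := fun i => by
    rw [← Matrix.add_vecMul]
    rfl
  simp only [h1, h2, Finset.sum_add_distrib]
  abel

theorem vf_smul (a : ℂ) : vf fN fS (a • Zi) (a • Zr) = a • vf fN fS Zi Zr := by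
  unfold vf
  have h1 : ∀ i, (a • Zi) i ᵥ* fN i = a • (Zi i ᵥ* fN i) := fun i => by
    rw [← Matrix.smul_vecMul]
    rfl
  have h2 : ∀ i, (a • Zr) i ᵥ* fS i = a • (Zr i ᵥ* fS i) := fun i => by
    rw [← Matrix.smul_vecMul]
    rfl
  simp only [h1, h2, ← Finset.smul_sum, smul_add]

theorem vf_mul {X : Matrix J J ℂ} (hN : ∀ i, X * fN i = fN i * X) (hS : ∀ l, X * fS l = fS l * X) :
    vf fN fS (Zi * X) (Zr * X) = vf fN fS Zi Zr ᵥ* X := by
  unfold vf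
  have h1 : ∀ i, (Zi * X) i ᵥ* fN i = (Zi i ᵥ* fN i) ᵥ* X := fun i => by
    have h3 : (Zi * X) i = Zi i ᵥ* X := rfl
    rw [h3, Matrix.vecMul_vecMul, Matrix.vecMul_vecMul, hN]
  have h2 : ∀ i, (Zr * X) i ᵥ* fS i = (Zr i ᵥ* fS i) ᵥ* X := fun i => by
    have h3 : (Zr * X) i = Zr i ᵥ* X := rfl
    rw [h3, Matrix.vecMul_vecMul, Matrix.vecMul_vecMul, hS]
  simp only [h1, h2]
  rw [Matrix.add_vecMul, Matrix.sum_vecMul, Matrix.sum_vecMul]

theorem vf_zero : vf fN fS 0 0 = 0 := by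
  have h := vf_smul fN fS 0 0 0
  simpa using h

end vf

variable (J S N) in
/-- The data of the group. -/
structure Dat where
  Om : Matrix J J ℂ
  OmI : Matrix J J ℂ
  inv1 : Om * OmI = 1
  inv2 : OmI * Om = 1
  anti : Omᵀ = -Om
  ratO : IsRatM Om
  ratI : IsRatM OmI
  P : Type
  fN : P → N → Matrix J J ℂ
  fS : P → S → Matrix J J ℂ
  ratN : ∀ p i, IsRatM (fN p i)
  ratS : ∀ p l, IsRatM (fS p l)
  Q : Type
  c : Q → Matrix N S ℂ
  ratc : ∀ q, IsRatM (c q)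
  brk : ∀ (q : Q) (Zi Zi' : Matrix N J ℂ) (Zr Zr' : Matrix S J ℂ),
    (∀ p, vf (fN p) (fS p) Zi Zr = 0) → (∀ p, vf (fN p) (fS p) Zi' Zr' = 0) →
      lf (c q) (Zi * (Zr' * Om)ᵀ - Zi' * (Zr * Om)ᵀ) = 0

/-- the matrices of the group -/
def pm (Om X : Matrix J J ℂ) (a : ℂ) (Zi : Matrix N J ℂ) (Zr : Matrix S J ℂ) (T : Matrix N S ℂ) :
    Matrix (J ⊕ (S ⊕ N)) (J ⊕ (S ⊕ N)) ℂ :=
  bm X (X * (Zr * Om)ᵀ) a Zi (T + (2⁻¹ : ℂ) • (Zi * (Zr * Om)ᵀ)) 1

theorem pm_one (Om : Matrix J J ℂ) : pm (S := S) (N := N) Om 1 1 0 0 0 = 1 := by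
  unfold pm
  rw [← bm_one]
  congr 1
  · simp
  · simp

theorem pm_mul {Om X X' : Matrix J J ℂ} {a a' : ℂ} {Zi Zi' : Matrix N J ℂ} {Zr Zr' : Matrix S J ℂ}
    {T T' : Matrix N S ℂ} (h : ∀ _ : S, X' * Om * X'ᵀ = a' • Om) :
    pm Om X a Zi Zr T * pm Om X' a' Zi' Zr' T' = pm Om (X * X') (a * a') (Zi * X' + Zi')
      (Zr * X' + Zr') (a' • T + T' + (2⁻¹ : ℂ) • (Zi * X' * (Zr' * Om)ᵀ - Zi' * (Zr * X' * Om)ᵀ)) := by
  have e1 : ∀ {I : Type} (W : Matrix I J ℂ), W * X' * (Zr * X' * Om)ᵀ = a' • (W * (Zr * Om)ᵀ) := by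
    intro I W
    ext i l
    have h1 := h l
    have h2 : X' * (Zr * X' * Om)ᵀ = a' • (Zr * Om)ᵀ := by
      have h3 : X' * (Zr * X' * Om)ᵀ = (Zr * (X' * Om * X'ᵀ))ᵀ := by
        simp only [Matrix.transpose_mul, Matrix.transpose_transpose, Matrix.mul_assoc]
      rw [h3, h1, Matrix.mul_smul, Matrix.transpose_smul]
    rw [Matrix.mul_assoc, h2, Matrix.mul_smul]
  unfold pm
  rw [bm_mul, one_mul, one_smul, one_smul]
  congr 1
  · rw [Matrix.add_mul, Matrix.transpose_add, Matrix.mul_add, e1]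
    rw [Matrix.mul_assoc, add_comm]
  · simp only [Matrix.add_mul, Matrix.transpose_add, Matrix.mul_add, e1]
    simp only [smul_add, smul_sub, smul_smul, ← Matrix.mul_assoc]
    have h2 : ∀ W : Matrix N S ℂ, (a' * 2⁻¹) • W = (2⁻¹ * a') • W := fun W => by rw [mul_comm]
    rw [h2]
    have h3 : ∀ W : Matrix N S ℂ, W = (2⁻¹ : ℂ) • W + (2⁻¹ : ℂ) • W := fun W => by
      rw [← add_smul]
      norm_num
    conv_lhs => rw [h3 (Zi * X' * (Zr' * Om)ᵀ)]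
    abel

namespace Dat

variable (D : Dat J S N)

/-- The elements of the group. -/
structure Mem (X : Matrix J J ℂ) (a : ℂ) (Zi : Matrix N J ℂ) (Zr : Matrix S J ℂ)
    (T : Matrix N S ℂ) : Prop where
  ex : ∃ X', X * X' = 1 ∧ X' * X = 1
  a0 : a ≠ 0
  a1 : IsEmpty S → a = 1
  sim : ∀ _ : S, X * D.Om * Xᵀ = a • D.Om
  cN : ∀ p i, X * D.fN p i = D.fN p i * X
  cS : ∀ p l, X * D.fS p l = D.fS p l * X
  v : ∀ p, vf (D.fN p) (D.fS p) Zi Zr = 0
  t : ∀ q, lf (D.c q) T = 0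

/-- The set of matrices. -/
def G : Set (Matrix (J ⊕ (S ⊕ N)) (J ⊕ (S ⊕ N)) ℂ) :=
  {M | ∃ X a Zi Zr T, D.Mem X a Zi Zr T ∧ M = pm D.Om X a Zi Zr T}

theorem one_mem : (1 : Matrix (J ⊕ (S ⊕ N)) (J ⊕ (S ⊕ N)) ℂ) ∈ D.G :=
  ⟨1, 1, 0, 0, 0, ⟨⟨1, by rw [Matrix.one_mul], by rw [Matrix.one_mul]⟩, one_ne_zero, fun _ => rfl,
    fun _ => by simp, fun p i => by rw [Matrix.one_mul, Matrix.mul_one], fun p i => by
      rw [Matrix.one_mul, Matrix.mul_one], fun p => vf_zero _ _, fun q => lf_zero _⟩,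
    (pm_one D.Om).symm⟩

theorem mul_mem {M M' : Matrix (J ⊕ (S ⊕ N)) (J ⊕ (S ⊕ N)) ℂ} (hM : M ∈ D.G) (hM' : M' ∈ D.G) :
    M * M' ∈ D.G := by
  obtain ⟨X, a, Zi, Zr, T, h, rfl⟩ := hM
  obtain ⟨X', a', Zi', Zr', T', h', rfl⟩ := hM'
  refine ⟨_, _, _, _, _, ?_, pm_mul h'.sim⟩
  have hv : ∀ p, vf (D.fN p) (D.fS p) (Zi * X') (Zr * X') = 0 := fun p => by
    rw [vf_mul _ _ _ _ (h'.cN p) (h'.cS p), h.v, Matrix.zero_vecMul]
  constructor
  · obtain ⟨Y, h1, h2⟩ := h.ex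
    obtain ⟨Y', h1', h2'⟩ := h'.ex
    refine ⟨Y' * Y, ?_, ?_⟩
    · rw [Matrix.mul_assoc, ← Matrix.mul_assoc X', h1', Matrix.one_mul, h1]
    · rw [Matrix.mul_assoc, ← Matrix.mul_assoc Y, h2, Matrix.one_mul, h2']
  · exact mul_ne_zero h.a0 h'.a0
  · intro hS
    rw [h.a1 hS, h'.a1 hS, one_mul]
  · intro l
    have h1 := h.sim l
    have h2 := h'.sim l
    have h3 : X * X' * D.Om * (X * X')ᵀ = X * (X' * D.Om * X'ᵀ) * Xᵀ := by
      simp only [Matrix.transpose_mul, Matrix.mul_assoc]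
    rw [h3, h2, Matrix.mul_smul, Matrix.smul_mul, h1, smul_smul, mul_comm]
  · intro p i
    rw [Matrix.mul_assoc, h'.cN, ← Matrix.mul_assoc, h.cN, Matrix.mul_assoc]
  · intro p i
    rw [Matrix.mul_assoc, h'.cS, ← Matrix.mul_assoc, h.cS, Matrix.mul_assoc]
  · intro p
    rw [vf_add, hv, h'.v, add_zero]
  · intro q
    rw [lf_add, lf_add, lf_smul, lf_smul, h.t, h'.t, D.brk q _ _ _ _ hv h'.v]
    ring

theorem inv_mem {M : Matrix (J ⊕ (S ⊕ N)) (J ⊕ (S ⊕ N)) ℂ} (hM : M ∈ D.G) :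
    ∃ M' ∈ D.G, M * M' = 1 := by
  obtain ⟨X, a, Zi, Zr, T, h, rfl⟩ := hM
  obtain ⟨X', h1, h2⟩ := h.ex
  have hsim : ∀ _ : S, X' * D.Om * X'ᵀ = a⁻¹ • D.Om := by
    intro l
    have h3 := h.sim l
    have h4 : X' * (X * D.Om * Xᵀ) * X'ᵀ = D.Om := by
      have h5 : X' * (X * D.Om * Xᵀ) * X'ᵀ = (X' * X) * D.Om * (X' * X)ᵀ := by
        simp only [Matrix.transpose_mul, Matrix.mul_assoc]
      rw [h5, h2, Matrix.one_mul, Matrix.transpose_one, Matrix.mul_one]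
    rw [h3, Matrix.mul_smul, Matrix.smul_mul] at h4
    rw [← h4, smul_smul, inv_mul_cancel₀ h.a0, one_smul, h4]
  have hc : ∀ f : Matrix J J ℂ, X * f = f * X → X' * f = f * X' := by
    intro f hf
    calc X' * f = X' * (f * (X * X')) := by rw [h1, Matrix.mul_one]
      _ = X' * (f * X) * X' := by simp only [Matrix.mul_assoc]
      _ = f * X' := by rw [← hf, ← Matrix.mul_assoc, h2, Matrix.one_mul]
  refine ⟨pm D.Om X' a⁻¹ (-(Zi * X')) (-(Zr * X')) (-(a⁻¹ • T)), ⟨_, _, _, _, _, ?_, rfl⟩, ?_⟩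
  · constructor
    · exact ⟨X, h2, h1⟩
    · exact inv_ne_zero h.a0
    · intro hS
      rw [h.a1 hS, inv_one]
    · exact hsim
    · exact fun p i => hc _ (h.cN p i)
    · exact fun p i => hc _ (h.cS p i)
    · intro p
      have h3 := vf_smul (D.fN p) (D.fS p) (Zi * X') (Zr * X') (-1)
      rw [neg_one_smul, neg_one_smul] at h3
      rw [h3, vf_mul _ _ _ _ (fun i => hc _ (h.cN p i)) (fun i => hc _ (h.cS p i)), h.v,
        Matrix.zero_vecMul, smul_zero]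
    · intro q
      have h3 := lf_smul (D.c q) (-1) (a⁻¹ • T)
      rw [neg_one_smul] at h3
      rw [h3, lf_smul, h.t, mul_zero, mul_zero]
  · rw [pm_mul hsim, ← pm_one D.Om]
    congr 1
    · exact mul_inv_cancel₀ h.a0
    · rw [add_neg_cancel]
    · rw [add_neg_cancel]
    · rw [add_neg_cancel, zero_add]
      simp only [Matrix.neg_mul, Matrix.transpose_neg, Matrix.mul_neg, sub_neg_eq_add]
      rw [neg_add_cancel, smul_zero]

/-! ### The equations -/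

/-- the scalar -/
def mA (M : Matrix (J ⊕ (S ⊕ N)) (J ⊕ (S ⊕ N)) ℂ) : ℂ := by
  classical
  exact if h : Nonempty S then M (Sum.inr (Sum.inl h.some)) (Sum.inr (Sum.inl h.some)) else 1

/-- the blocks -/
def mX (M : Matrix (J ⊕ (S ⊕ N)) (J ⊕ (S ⊕ N)) ℂ) : Matrix J J ℂ :=
  Matrix.of fun j j' => M (Sum.inl j) (Sum.inl j')

/-- the blocks -/
def mY (M : Matrix (J ⊕ (S ⊕ N)) (J ⊕ (S ⊕ N)) ℂ) : Matrix J S ℂ :=
  Matrix.of fun j l => M (Sum.inl j) (Sum.inr (Sum.inl l))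

/-- the blocks -/
def mZ (M : Matrix (J ⊕ (S ⊕ N)) (J ⊕ (S ⊕ N)) ℂ) : Matrix N J ℂ :=
  Matrix.of fun i j => M (Sum.inr (Sum.inr i)) (Sum.inl j)

/-- the blocks -/
def mT (M : Matrix (J ⊕ (S ⊕ N)) (J ⊕ (S ⊕ N)) ℂ) : Matrix N S ℂ :=
  Matrix.of fun i l => M (Sum.inr (Sum.inr i)) (Sum.inr (Sum.inl l))

variable (X : Matrix J J ℂ) (y : Matrix J S ℂ) (a : ℂ) (z : Matrix N J ℂ)
  (t : Matrix N S ℂ) (b : ℂ)

theorem mX_bm : mX (bm X y a z t b) = X := rfl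

theorem mY_bm : mY (bm X y a z t b) = y := rfl

theorem mZ_bm : mZ (bm X y a z t b) = z := rfl

theorem mT_bm : mT (bm X y a z t b) = t := rfl

theorem mA_bm (h : IsEmpty S → a = 1) : mA (bm X y a z t b) = a := by
  unfold mA
  split_ifs with hS
  · simp [bm]
  · exact (h (not_nonempty_iff.1 hS)).symm

/-- The equations of the group. -/
def Eqs (M : Matrix (J ⊕ (S ⊕ N)) (J ⊕ (S ⊕ N)) ℂ) : Prop :=
  M = bm (mX M) (mY M) (mA M) (mZ M) (mT M) 1 ∧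
  (∀ p i, mX M * D.fN p i = D.fN p i * mX M) ∧
  (∀ p l, mX M * D.fS p l = D.fS p l * mX M) ∧
  (∀ _ : S, mX M * D.Om * (mX M)ᵀ = mA M • D.Om) ∧
  (∀ p, vf (D.fN p) (D.fS p) (mA M • mZ M) ((mY M)ᵀ * D.OmI * mX M) = 0) ∧
  ∀ q, lf (D.c q) (mA M • mT M - (2⁻¹ : ℂ) • (mZ M * ((mY M)ᵀ * D.OmI * mX M * D.Om)ᵀ)) = 0

theorem eqs_of_mem {M : Matrix (J ⊕ (S ⊕ N)) (J ⊕ (S ⊕ N)) ℂ} (hM : M ∈ D.G) : D.Eqs M := by
  obtain ⟨X, a, Zi, Zr, T, h, rfl⟩ := hM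
  have hZ : ∀ _ : S, (X * (Zr * D.Om)ᵀ)ᵀ * D.OmI * X = a • Zr := by
    intro l
    have h3 : (X * (Zr * D.Om)ᵀ)ᵀ * D.OmI * X = Zr * (D.Om * Xᵀ * D.OmI * X) := by
      simp only [Matrix.transpose_mul, Matrix.transpose_transpose, Matrix.mul_assoc]
    obtain ⟨X', h1, h2⟩ := h.ex
    have h4 : D.Om * Xᵀ * D.OmI * X = a • (1 : Matrix J J ℂ) := by
      have h5 : D.Om * Xᵀ = a • (X' * D.Om) := by
        rw [← Matrix.mul_smul, ← h.sim l, ← Matrix.mul_assoc, ← Matrix.mul_assoc, h2,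
          Matrix.one_mul]
      rw [h5, Matrix.smul_mul, Matrix.mul_assoc X', D.inv1, Matrix.mul_one, Matrix.smul_mul, h2]
    rw [h3, h4, Matrix.mul_smul, Matrix.mul_one]
  have hZ' : (X * (Zr * D.Om)ᵀ)ᵀ * D.OmI * X = a • Zr := by
    ext l j
    rw [hZ l]
  unfold Eqs pm
  rw [mX_bm, mY_bm, mZ_bm, mT_bm, mA_bm _ _ _ _ _ _ h.a1]
  refine ⟨rfl, h.cN, h.cS, h.sim, fun p => ?_, fun q => ?_⟩
  · rw [hZ', vf_smul, h.v, smul_zero]
  · rw [hZ', smul_add, Matrix.smul_mul, Matrix.transpose_smul, Matrix.mul_smul,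
      smul_comm a (2⁻¹ : ℂ), add_sub_cancel_right, lf_smul, h.t, mul_zero]

theorem mem_of_eqs {M M' : Matrix (J ⊕ (S ⊕ N)) (J ⊕ (S ⊕ N)) ℂ} (hM : D.Eqs M)
    (h1 : M * M' = 1) : M ∈ D.G := by
  obtain ⟨e1, e2, e3, e4, e5, e6⟩ := hM
  have ha0 : mA M ≠ 0 := by
    rcases isEmpty_or_nonempty S with hS | ⟨⟨l⟩⟩
    · unfold mA
      rw [dif_neg (not_nonempty_iff.2 hS)]
      exact one_ne_zero
    · intro h0
      have h2 := congrFun (congrFun h1 (Sum.inr (Sum.inl l))) (Sum.inr (Sum.inl l))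
      rw [e1, h0, Matrix.mul_apply, Matrix.one_apply_eq, Fintype.sum_sum_type,
        Fintype.sum_sum_type] at h2
      simp [bm] at h2
  have hX : ∃ X', mX M * X' = 1 := by
    have hl : ∀ l j, M' (Sum.inr (Sum.inl l)) (Sum.inl j) = 0 := by
      intro l j
      have h2 := congrFun (congrFun h1 (Sum.inr (Sum.inl l))) (Sum.inl j)
      rw [e1, Matrix.mul_apply, Fintype.sum_sum_type, Fintype.sum_sum_type] at h2
      simp [bm] at h2
      exact h2.resolve_left ha0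
    refine ⟨Matrix.of fun j j' => M' (Sum.inl j) (Sum.inl j'), ?_⟩
    ext j j'
    have h2 := congrFun (congrFun h1 (Sum.inl j)) (Sum.inl j')
    rw [e1, Matrix.mul_apply, Fintype.sum_sum_type, Fintype.sum_sum_type] at h2
    simp only [bm, Matrix.of_apply, Sum.elim_inl, Sum.elim_inr, hl, mul_zero, zero_mul,
      Finset.sum_const_zero, add_zero] at h2
    rw [Matrix.mul_apply, Matrix.one_apply]
    simp only [Matrix.of_apply]
    rw [h2, Matrix.one_apply]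
    simp
  obtain ⟨X', hX'⟩ := hX
  obtain ⟨Zr, hZr⟩ : ∃ Zr, Zr = (mA M)⁻¹ • ((mY M)ᵀ * D.OmI * mX M) := ⟨_, rfl⟩
  have hZr' : mA M • Zr = (mY M)ᵀ * D.OmI * mX M := by
    rw [hZr, smul_smul, mul_inv_cancel₀ ha0, one_smul]
  have hy : mX M * (Zr * D.Om)ᵀ = mY M := by
    ext j l
    have h3 : mA M • (mX M * (Zr * D.Om)ᵀ) = mA M • mY M := by
      rw [← Matrix.mul_smul, ← Matrix.transpose_smul, ← Matrix.smul_mul, hZr']
      have h4 : mX M * ((mY M)ᵀ * D.OmI * mX M * D.Om)ᵀ =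
          ((mY M)ᵀ * D.OmI * (mX M * D.Om * (mX M)ᵀ))ᵀ := by
        simp only [Matrix.transpose_mul, Matrix.transpose_transpose, Matrix.mul_assoc]
      rw [h4, e4 l, Matrix.mul_smul, Matrix.mul_assoc, D.inv2, Matrix.mul_one,
        Matrix.transpose_smul, Matrix.transpose_transpose]
    have h5 := congrFun (congrFun h3 j) l
    rw [Matrix.smul_apply, Matrix.smul_apply, smul_eq_mul, smul_eq_mul] at h5
    exact mul_left_cancel₀ ha0 h5
  refine ⟨mX M, mA M, mZ M, Zr, mT M - (2⁻¹ : ℂ) • (mZ M * (Zr * D.Om)ᵀ), ?_, ?_⟩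
  · constructor
    · exact ⟨X', hX', mul_eq_one_comm.1 hX'⟩
    · exact ha0
    · intro hS
      unfold mA
      rw [dif_neg (not_nonempty_iff.2 hS)]
    · exact e4
    · exact e2
    · exact e3
    · intro p
      have h3 := e5 p
      rw [← hZr', vf_smul] at h3
      exact (smul_eq_zero.1 h3).resolve_left ha0
    · intro q
      have h3 := e6 q
      rw [← hZr', Matrix.smul_mul, Matrix.transpose_smul, Matrix.mul_smul,
        smul_comm (2⁻¹ : ℂ) (mA M), ← smul_sub, lf_smul] at h3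
      exact (mul_eq_zero.1 h3).resolve_left ha0
  · unfold pm
    rw [hy, sub_add_cancel]
    exact e1

/-! ### The group is algebraic -/

theorem rp_mA : RP (mA : Matrix (J ⊕ (S ⊕ N)) (J ⊕ (S ⊕ N)) ℂ → ℂ) := by
  unfold mA
  by_cases h : Nonempty S
  · simp only [dif_pos h]
    exact RP.entry _ _
  · simp only [dif_neg h]
    exact RP.one

theorem rp_mX : RPM (mX : Matrix (J ⊕ (S ⊕ N)) (J ⊕ (S ⊕ N)) ℂ → _) := fun _ _ => RP.entry _ _

theorem rp_mY : RPM (mY : Matrix (J ⊕ (S ⊕ N)) (J ⊕ (S ⊕ N)) ℂ → _) := fun _ _ => RP.entry _ _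

theorem rp_mZ : RPM (mZ : Matrix (J ⊕ (S ⊕ N)) (J ⊕ (S ⊕ N)) ℂ → _) := fun _ _ => RP.entry _ _

theorem rp_mT : RPM (mT : Matrix (J ⊕ (S ⊕ N)) (J ⊕ (S ⊕ N)) ℂ → _) := fun _ _ => RP.entry _ _

theorem as_eqs : AS {M | D.Eqs M} := by
  have hZ : RPM fun M : Matrix (J ⊕ (S ⊕ N)) (J ⊕ (S ⊕ N)) ℂ => (mY M)ᵀ * D.OmI * mX M :=
    (rp_mY.transpose.mul (RPM.const D.ratI)).mul rp_mX
  refine AS.and (AS.eqM RPM.id ?_) (AS.and (AS.all fun p => AS.all fun i =>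
    AS.eqM (rp_mX.mul (RPM.const (D.ratN p i))) ((RPM.const (D.ratN p i)).mul rp_mX))
    (AS.and (AS.all fun p => AS.all fun i =>
    AS.eqM (rp_mX.mul (RPM.const (D.ratS p i))) ((RPM.const (D.ratS p i)).mul rp_mX))
    (AS.and (AS.all fun _ : S => AS.eqM ((rp_mX.mul (RPM.const D.ratO)).mul rp_mX.transpose)
      (RPM.smul rp_mA (RPM.const D.ratO))) (AS.and (AS.all fun p => ?_) (AS.all fun q => ?_)))))
  · intro r r'
    rcases r with j | l | i <;> rcases r' with j' | l' | i' <;>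
      simp only [bm, Matrix.of_apply, Sum.elim_inl, Sum.elim_inr]
    · exact RP.entry _ _
    · exact RP.entry _ _
    · exact RP.zero
    · exact RP.zero
    · split_ifs
      · exact rp_mA
      · exact RP.zero
    · exact RP.zero
    · exact RP.entry _ _
    · exact RP.entry _ _
    · split_ifs
      · exact RP.one
      · exact RP.zero
  · have h1 := AS.all (ι := J) fun j => AS.eq (R := J ⊕ (S ⊕ N))
      (f := fun M => vf (D.fN p) (D.fS p) (mA M • mZ M) ((mY M)ᵀ * D.OmI * mX M) j)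
      (g := fun _ => 0) (by
        unfold vf
        simp only [Pi.add_apply, Finset.sum_apply, Matrix.vecMul, dotProduct]
        refine RP.add (RP.sum _ fun i => RP.sum _ fun j' => RP.mul ?_ ?_)
          (RP.sum _ fun l => RP.sum _ fun j' => RP.mul ?_ ?_)
        · exact (RPM.smul rp_mA rp_mZ) i j'
        · exact RPM.const (D.ratN p i) j' j
        · exact hZ l j'
        · exact RPM.const (D.ratS p l) j' j) RP.zero
    have h2 : {M | vf (D.fN p) (D.fS p) (mA M • mZ M) ((mY M)ᵀ * D.OmI * mX M) = 0} =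
        {M | ∀ j, M ∈ {M : Matrix (J ⊕ (S ⊕ N)) (J ⊕ (S ⊕ N)) ℂ |
          vf (D.fN p) (D.fS p) (mA M • mZ M) ((mY M)ᵀ * D.OmI * mX M) j = 0}} := by
      ext M
      exact ⟨fun h j => congrFun h j, fun h => funext h⟩
    change AS {M | vf (D.fN p) (D.fS p) (mA M • mZ M) ((mY M)ᵀ * D.OmI * mX M) = 0}
    rw [h2]
    exact h1
  · refine AS.eq (R := J ⊕ (S ⊕ N)) (f := fun M => lf (D.c q) (mA M • mT M - (2⁻¹ : ℂ) •
      (mZ M * ((mY M)ᵀ * D.OmI * mX M * D.Om)ᵀ))) (g := fun _ => 0) ?_ RP.zero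
    unfold lf
    refine RP.sum _ fun i => RP.sum _ fun l => RP.mul (RPM.const (D.ratc q) i l) ?_
    have h2 : RP fun _ : Matrix (J ⊕ (S ⊕ N)) (J ⊕ (S ⊕ N)) ℂ => (2⁻¹ : ℂ) := by
      have h3 := RP.const (R := J ⊕ (S ⊕ N)) 2⁻¹
      simpa using h3
    exact (RPM.sub (RPM.smul rp_mA rp_mT) (RPM.smul h2
      (rp_mZ.mul (hZ.mul (RPM.const D.ratO)).transpose))) i l

end Dat

end Pool.Agent.T6.H14.UG
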