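import Pool.Agent.T6.H14.UG.Uni

set_option autoImplicit false
set_option linter.unusedSectionVars false
set_option linter.unusedSimpArgs false

/-!
# The unipotent part is in the group
-/

open Module Function TensorProduct Matrix

noncomputable section

namespace Pool.Agent.T6.H14.UG

open Pool.Agent.Y102 Pool.Agent.W516.DR Pool.Agent.H204R3.GP Pool.Agent.W516.KC
  Pool.Agent.H204R3.SP Pool.Agent.TH119.MX Pool.Agent.R917.OM Pool.Agent.R917.BX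
  Pool.Agent.R917

variable {g : ℕ} {A : AbVarG g} {n s : ℕ} {𝔤 : Submodule ℚ (Tup A.toAbVar n s)} {d : Dt g n s}

/-! ### The frame -/

theorem tM_neg (τ : Fin n → Fin s → ℚ) : tM (-τ) = -tM τ := by
  ext i l
  change (((-τ) i l : ℚ) : ℂ) = -((τ i l : ℚ) : ℂ)
  rw [Pi.neg_apply, Pi.neg_apply]
  push_cast
  rfl

/-- the frame of the group -/
def kF (A : AbVar g) (w : (Fin n ⊕ Fin s) → A.H1) (τ : Fin n → Fin s → ℚ) :
    Matrix (RI g n s) (RI g n s) ℂ := un A (zI w) (zR w) (tM τ)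

/-- the inverse frame -/
def kI (A : AbVar g) (w : (Fin n ⊕ Fin s) → A.H1) (τ : Fin n → Fin s → ℚ) :
    Matrix (RI g n s) (RI g n s) ℂ := un A (-zI w) (-zR w) (-tM τ)

theorem un_inv {A : AbVar g} (Zi : Matrix (Fin n) (Fin (2 * g)) ℂ)
    (Zr : Matrix (Fin s) (Fin (2 * g)) ℂ) (T : Matrix (Fin n) (Fin s) ℂ) :
    un A Zi Zr T * un A (-Zi) (-Zr) (-T) = 1 := by
  rw [un_mul, add_neg_cancel, add_neg_cancel, add_neg_cancel, zero_add, Matrix.neg_mul,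
    Matrix.transpose_neg, Matrix.mul_neg, Matrix.neg_mul, sub_neg_eq_add, neg_add_cancel,
    smul_zero, un_zero]

theorem un_inv' {A : AbVar g} (Zi : Matrix (Fin n) (Fin (2 * g)) ℂ)
    (Zr : Matrix (Fin s) (Fin (2 * g)) ℂ) (T : Matrix (Fin n) (Fin s) ℂ) :
    un A (-Zi) (-Zr) (-T) * un A Zi Zr T = 1 := mul_eq_one_comm.1 (un_inv Zi Zr T)

theorem kF_kI (A : AbVar g) (w : (Fin n ⊕ Fin s) → A.H1) (τ : Fin n → Fin s → ℚ) :
    kF A w τ * kI A w τ = 1 := un_inv _ _ _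

theorem kI_kF (A : AbVar g) (w : (Fin n ⊕ Fin s) → A.H1) (τ : Fin n → Fin s → ℚ) :
    kI A w τ * kF A w τ = 1 := un_inv' _ _ _

theorem isRatM_neg {I J : Type} {M : Matrix I J ℂ} (h : IsRatM M) : IsRatM (-M) := fun i j => by
  obtain ⟨q, hq⟩ := h i j
  exact ⟨-q, by rw [Matrix.neg_apply, hq]; push_cast; rfl⟩

theorem isRatM_tM (τ : Fin n → Fin s → ℚ) : IsRatM (tM τ) := fun _ _ => ⟨_, rfl⟩

theorem isRatM_kF (A : AbVar g) (w : (Fin n ⊕ Fin s) → A.H1) (τ : Fin n → Fin s → ℚ) :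
    IsRatM (kF A w τ) := isRatM_un (isRatM_zI w) (isRatM_zR w) (isRatM_tM τ)

theorem isRatM_kI (A : AbVar g) (w : (Fin n ⊕ Fin s) → A.H1) (τ : Fin n → Fin s → ℚ) :
    IsRatM (kI A w τ) := isRatM_un (isRatM_neg (isRatM_zI w)) (isRatM_neg (isRatM_zR w))
      (isRatM_neg (isRatM_tM τ))

theorem kF_eq (A : AbVar g) (w : (Fin n ⊕ Fin s) → A.H1) (τ : Fin n → Fin s → ℚ) :
    kF A w τ = un A (zI w) (zR w) 0 * un A 0 0 (tM τ) := by
  rw [un_mul, add_zero, add_zero, zero_add, Matrix.zero_mul, Matrix.transpose_zero,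
    Matrix.mul_zero, Matrix.zero_mul, sub_self, smul_zero, add_zero]
  rfl

/-- the shift of the torus part -/
def sh {A : AbVar g} (τ : Fin n → Fin s → ℚ) (L : Tup A n s) : Tup A n s :=
  (L.1, L.2.1, L.2.2.1, fun i l => L.2.2.2 i l + 2 * L.2.1 * τ i l)

theorem sh_mt {A : AbVar g} (τ : Fin n → Fin s → ℚ) (L : Tup A n s) :
    un A 0 0 (tM τ) * OM.mt L = OM.mt (sh τ L) * un A 0 0 (tM τ) := by
  rw [mt_bm, mt_bm, un_eq, bm_mul, bm_mul]
  have ho : op (sh τ L) = op L := rfl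
  congr 1
  · rw [Matrix.one_mul, Matrix.mul_one, ho]
  · rw [Matrix.one_mul, Matrix.zero_mul, Matrix.transpose_zero, smul_zero, add_zero,
      Matrix.mul_zero, zero_add, one_smul]
    rfl
  · rw [one_mul, mul_one]
    rfl
  · rw [Matrix.zero_mul, zero_add, one_smul, Matrix.mul_one, zero_smul, add_zero]
    rfl
  · simp only [Matrix.zero_mul, Matrix.transpose_zero, Matrix.mul_zero, zero_add, smul_zero,
      add_zero, one_smul, zero_smul]
    ext i l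
    change (2 * (L.2.1 : ℂ)) * ((τ i l : ℚ) : ℂ) + ((L.2.2.2 i l : ℚ) : ℂ) =
      (((L.2.2.2 i l + 2 * L.2.1 * τ i l : ℚ)) : ℂ)
    push_cast
    ring
  · simp

/-- **Elements of the Lie algebra in the frame.** -/
theorem frame_mem (h : Lg 𝔤 d) (w : (Fin n ⊕ Fin s) → A.toAbVar.H1) (τ : Fin n → Fin s → ℚ)
    {L : Tup A.toAbVar n s} (hL : sh τ L ∈ 𝔤.map (cj w)) :
    ∃ L' ∈ 𝔤, kF A.toAbVar w τ * OM.mt L * kI A.toAbVar w τ = OM.mt L' := by
  obtain ⟨L', hL', h1⟩ := hL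
  refine ⟨L', hL', ?_⟩
  have h2 : kF A.toAbVar w τ * OM.mt L = OM.mt L' * kF A.toAbVar w τ := by
    rw [kF_eq, Matrix.mul_assoc, sh_mt, ← Matrix.mul_assoc, ← h1,
      un_mul_mt w (A.NA_skew (h.na L' hL')), Matrix.mul_assoc]
  rw [h2, Matrix.mul_assoc, kF_kI, Matrix.mul_one]

/-! ### The unipotent part -/

/-- the nilpotent matrix -/
def nM (A : AbVar g) (Zi : Matrix (Fin n) (Fin (2 * g)) ℂ) (Zr : Matrix (Fin s) (Fin (2 * g)) ℂ)
    (T : Matrix (Fin n) (Fin s) ℂ) : Matrix (RI g n s) (RI g n s) ℂ :=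
  bm 0 (Zr * OmM A)ᵀ 0 Zi T 0

/-- the rational components of the torus part -/
def tc (lam : ℂ →ₗ[ℚ] ℚ) (T : Matrix (Fin n) (Fin s) ℂ) : Fin n → Fin s → ℚ :=
  fun i l => lam (T i l)

theorem em_zero : em (0 : Module.End ℚ A.toAbVar.H1) = 0 := by
  ext i j
  change (((0 : Module.End ℚ A.toAbVar.H1) (eb A.toAbVar i) j : ℚ) : ℂ) = 0
  rw [LinearMap.zero_apply, Pi.zero_apply, Rat.cast_zero]

theorem em_one : em (1 : Module.End ℚ A.toAbVar.H1) = 1 := by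
  ext i j
  change (((1 : Module.End ℚ A.toAbVar.H1) (eb A.toAbVar i) j : ℚ) : ℂ) = _
  rw [Module.End.one_apply, Matrix.one_apply]
  unfold eb
  rw [Pi.single_apply]
  by_cases hij : i = j
  · subst hij
    simp
  · rw [if_neg (Ne.symm hij), if_neg hij, Rat.cast_zero]

theorem nM_map (lam : ℂ →ₗ[ℚ] ℚ) (Zi : Matrix (Fin n) (Fin (2 * g)) ℂ)
    (Zr : Matrix (Fin s) (Fin (2 * g)) ℂ) (T : Matrix (Fin n) (Fin s) ℂ) :
    (nM A.toAbVar Zi Zr T).map (lamF lam) =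
      OM.mt ((0, 0, zc A.toAbVar lam Zi Zr, tc lam T) : Tup A.toAbVar n s) := by
  rw [mt_bm]
  have h1 : op ((0, 0, zc A.toAbVar lam Zi Zr, tc lam T) : Tup A.toAbVar n s) = 0 := by
    unfold op
    rw [zero_smul, add_zero]
  rw [h1, em_zero]
  have h2 : zR (zc A.toAbVar lam Zi Zr) = Zr.map (lamF lam) := rfl
  have h3 : (zR (zc A.toAbVar lam Zi Zr) * OmM A.toAbVar)ᵀ =
      ((Zr * OmM A.toAbVar)ᵀ).map (lamF lam) := by
    have hO : IsRatM (OmM A.toAbVar) := isRatM_map _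
    rw [h2, Matrix.transpose_map, map_mul_rat lam hO]
  change _ = bm 0 (zR (zc A.toAbVar lam Zi Zr) * OmM A.toAbVar)ᵀ (2 * ((0 : ℚ) : ℂ)) _ _ 0
  rw [h3]
  ext r r'
  rcases r with j | l | i <;> rcases r' with j' | l' | i' <;>
    simp only [nM, bm, Matrix.of_apply, Matrix.map_apply, Sum.elim_inl, Sum.elim_inr, map_zero,
      ite_self, Matrix.zero_apply, Rat.cast_zero, mul_zero]
  · rfl
  · rfl

/-- The Lie algebra contains the unipotent part. -/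
theorem unip_mem (h : Lg 𝔤 d) (u : UD 𝔤 d) {Zi : Matrix (Fin n) (Fin (2 * g)) ℂ}
    {Zr : Matrix (Fin s) (Fin (2 * g)) ℂ} {T : Matrix (Fin n) (Fin s) ℂ} (hv : VC u Zi Zr)
    (ht : ∀ φ : (Fin n → Fin s → ℚ) →ₗ[ℚ] ℚ, (∀ t ∈ tt 𝔤, φ t = 0) →
      lf (Matrix.of (mC φ)) T = 0) (lam : ℂ →ₗ[ℚ] ℚ) :
    ((0, 0, zc A.toAbVar lam Zi Zr, tc lam T) : Tup A.toAbVar n s) ∈ 𝔤.map (cj u.w) := by
  refine mem_of_parts' (map_Lg u.w h) (u.hBmap h) (L := 0) (Submodule.zero_mem _) rfl rfl ?_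
    fun φ hφ ρ hρ => ?_
  · rw [uu_map]
    have h1 := zc_mem hv lam
    convert h1 using 1
    funext p
    exact sub_zero _
  · change φ (tc lam T) = 2 * (0 : ℚ) * ρ
    rw [mul_zero, zero_mul, phi_eq]
    have h1 := congrArg lam (ht φ fun t ht => hφ t (by rw [tt_map]; exact ht))
    rw [map_zero] at h1
    rw [← h1]
    unfold lf
    rw [map_sum]
    refine Finset.sum_congr rfl fun i _ => ?_
    rw [map_sum]
    refine Finset.sum_congr rfl fun l _ => ?_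
    change mm φ i l * lam (T i l) = lam (((mm φ i l : ℚ) : ℂ) * T i l)
    rw [← Rat.smul_def, map_smul, smul_eq_mul]

/-- the shift of the weight -/
def tau0 (u : UD 𝔤 d) (W : Tup A.toAbVar n s) : Fin n → Fin s → ℚ :=
  fun i l => 2⁻¹ * (cj u.w W).2.2.2 i l

/-- The Lie algebra contains the weight. -/
theorem weight_mem (h : Lg 𝔤 d) (u : UD 𝔤 d) {W : Tup A.toAbVar n s} (hW : W ∈ 𝔤) (h1 : W.1 = 0)
    (h2 : W.2.1 = 1) :
    sh (tau0 u W) ((0, 1, 0, 0) : Tup A.toAbVar n s) ∈ 𝔤.map (cj u.w) := by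
  refine mem_of_parts' (map_Lg u.w h) (u.hBmap h) (L := cj u.w W) ⟨W, hW, rfl⟩ h1.symm h2.symm ?_
    fun φ hφ ρ hρ => ?_
  · rw [uu_map]
    have h3 := (uu 𝔤).neg_mem (u.levi W hW)
    convert h3 using 1
    funext p
    exact zero_sub _
  · have h3 := hρ _ ⟨W, hW, rfl⟩
    have h4 : (cj u.w W).2.1 = 1 := h2
    rw [h4] at h3
    change φ (fun i l => (0 : ℚ) + 2 * 1 * (2⁻¹ * (cj u.w W).2.2.2 i l)) = 2 * 1 * ρ
    rw [← h3]
    congr 1
    funext i l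
    ring

theorem tau0_rho (u : UD 𝔤 d) {W : Tup A.toAbVar n s} (hW : W ∈ 𝔤)
    (h2 : W.2.1 = 1) {φ : (Fin n → Fin s → ℚ) →ₗ[ℚ] ℚ} {ρ : ℚ}
    (hρ : ∀ L ∈ 𝔤.map (cj u.w), φ L.2.2.2 = 2 * L.2.1 * ρ) : φ (tau0 u W) = ρ := by
  have h3 := hρ _ ⟨W, hW, rfl⟩
  have h4 : (cj u.w W).2.1 = 1 := h2
  rw [h4] at h3
  have h5 : tau0 u W = (2⁻¹ : ℚ) • (cj u.w W).2.2.2 := by
    funext i l
    rfl
  rw [h5, map_smul, h3, smul_eq_mul]
  ring

/-! ### Exponentials -/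

theorem nM_sq (Zi : Matrix (Fin n) (Fin (2 * g)) ℂ) (Zr : Matrix (Fin s) (Fin (2 * g)) ℂ)
    (T : Matrix (Fin n) (Fin s) ℂ) : nM A.toAbVar Zi Zr T * nM A.toAbVar Zi Zr T =
      bm 0 0 0 0 (Zi * (Zr * OmM A.toAbVar)ᵀ) 0 := by
  unfold nM
  rw [bm_mul]
  congr 1 <;> simp

theorem nM_cube (Zi : Matrix (Fin n) (Fin (2 * g)) ℂ) (Zr : Matrix (Fin s) (Fin (2 * g)) ℂ)
    (T : Matrix (Fin n) (Fin s) ℂ) : nM A.toAbVar Zi Zr T ^ 3 = 0 := by
  rw [pow_succ, pow_two, nM_sq]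
  unfold nM
  rw [bm_mul]
  have h0 : bm (0 : Matrix (Fin (2 * g)) (Fin (2 * g)) ℂ) (0 : Matrix _ (Fin s) ℂ) 0
      (0 : Matrix (Fin n) _ ℂ) 0 0 = 0 := by
    ext r r'
    rcases r with j | l | i <;> rcases r' with j' | l' | i' <;> simp [bm]
  rw [← h0]
  congr 1 <;> simp

theorem exp_nM (Zi : Matrix (Fin n) (Fin (2 * g)) ℂ) (Zr : Matrix (Fin s) (Fin (2 * g)) ℂ)
    (T : Matrix (Fin n) (Fin s) ℂ) :
    NormedSpace.exp (nM A.toAbVar Zi Zr T) = un A.toAbVar Zi Zr T := by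
  have h3 : ∀ k : ℕ, 3 ≤ k → nM A.toAbVar Zi Zr T ^ k = 0 := by
    intro k hk
    obtain ⟨m, rfl⟩ := Nat.exists_eq_add_of_le hk
    rw [pow_add, nM_cube, zero_mul]
  rw [NormedSpace.exp_eq_tsum ℂ]
  change ∑' k : ℕ, ((k.factorial : ℂ)⁻¹ • nM A.toAbVar Zi Zr T ^ k) = _
  rw [tsum_eq_sum (s := Finset.range 3)]
  · rw [Finset.sum_range_succ, Finset.sum_range_succ, Finset.sum_range_succ,
      Finset.sum_range_zero, pow_zero, pow_one, pow_two, nM_sq, un_eq, ← bm_one]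
    unfold nM
    rw [zero_add, bm_smul, bm_smul, bm_smul, bm_add, bm_add]
    simp only [Nat.factorial, Nat.cast_one, Nat.cast_ofNat, inv_one, one_smul, Nat.succ_eq_add_one,
      smul_zero, add_zero, zero_add, mul_one, mul_zero, one_mul, Nat.reduceAdd, Nat.reduceMul]
  · intro k hk
    rw [h3 k (by simpa using hk), smul_zero]

/-- the block diagonal element of weight one -/
def bL (g n s : ℕ) (c : ℂ) : Matrix (RI g n s) (RI g n s) ℂ :=
  bm (c • (1 : Matrix (Fin (2 * g)) (Fin (2 * g)) ℂ)) 0 (c ^ 2) 0 0 1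

theorem exp_bL (c : ℂ) (hc : c ≠ 0) : NormedSpace.exp (Complex.log c • OM.mt
    ((0, 1, 0, 0) : Tup A.toAbVar n s)) = bL g n s c := by
  have h1 : Complex.log c • OM.mt ((0, 1, 0, 0) : Tup A.toAbVar n s) = Matrix.diagonal
      (Sum.elim (fun _ => Complex.log c) (Sum.elim (fun _ => 2 * Complex.log c) (fun _ => 0))) := by
    rw [mt_bm]
    have h2 : op ((0, 1, 0, 0) : Tup A.toAbVar n s) = 1 := by
      unfold op
      rw [one_smul, zero_add]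
    rw [h2, em_one]
    ext r r'
    rcases r with j | l | i <;> rcases r' with j' | l' | i' <;>
      simp [bm, Matrix.diagonal_apply, Matrix.one_apply, zI, zR, tM, Matrix.mul_apply, mul_comm]
  rw [h1, Matrix.exp_diagonal]
  ext r r'
  have hexp : ∀ v : RI g n s → ℂ, NormedSpace.exp v = fun r => Complex.exp (v r) := by
    intro v
    funext r
    rw [Pi.coe_exp, Complex.exp_eq_exp_ℂ]
  rw [hexp]
  rcases r with j | l | i <;> rcases r' with j' | l' | i' <;>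
    simp only [bL, bm, Matrix.diagonal_apply, Matrix.of_apply, Sum.elim_inl, Sum.elim_inr,
      Matrix.smul_apply, Matrix.one_apply, reduceCtorEq, if_false, Sum.inl.injEq, Sum.inr.injEq,
      Complex.exp_zero, Matrix.zero_apply]
  · rw [Complex.exp_log hc]
    split_ifs <;> simp
  · have h5 : Complex.exp (2 * Complex.log c) = c ^ 2 := by
      rw [two_mul, Complex.exp_add, Complex.exp_log hc, pow_two]
    rw [h5]

/-! ### Membership in the group -/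

variable {H : Set (Matrix (RI g n s) (RI g n s) ℂ)}

theorem isUnit_kF (A : AbVar g) (w : (Fin n ⊕ Fin s) → A.H1) (τ : Fin n → Fin s → ℚ) :
    IsUnit (kF A w τ) := ⟨⟨_, _, kF_kI A w τ, kI_kF A w τ⟩, rfl⟩

theorem kF_inv (A : AbVar g) (w : (Fin n ⊕ Fin s) → A.H1) (τ : Fin n → Fin s → ℚ) :
    (kF A w τ)⁻¹ = kI A w τ := Matrix.inv_eq_right_inv (kF_kI A w τ)

theorem un_mem_H (hpt : PtM A.toAbVar d H) (u : UD (gg A.toAbVar n s H) d)
    (τ : Fin n → Fin s → ℚ) {Zi : Matrix (Fin n) (Fin (2 * g)) ℂ}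
    {Zr : Matrix (Fin s) (Fin (2 * g)) ℂ} {T : Matrix (Fin n) (Fin s) ℂ} (hv : VC u Zi Zr)
    (ht : ∀ φ : (Fin n → Fin s → ℚ) →ₗ[ℚ] ℚ, (∀ t ∈ tt (gg A.toAbVar n s H), φ t = 0) →
      lf (Matrix.of (mC φ)) T = 0) :
    kF A.toAbVar u.w τ * un A.toAbVar Zi Zr T * kI A.toAbVar u.w τ ∈ H := by
  have hLg := gg_Lg hpt
  rw [← exp_nM, ← kF_inv, ← Matrix.exp_conj _ _ (isUnit_kF _ _ _), kF_inv]
  refine exp_mem hpt.grp fun k => stab_of_comp fun lam => ?_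
  rw [map_mul_rat lam (isRatM_kI _ _ _), map_rat_mul lam (isRatM_kF _ _ _), nM_map]
  have h1 := unip_mem hLg u hv ht lam
  have h2 : sh τ ((0, 0, zc A.toAbVar lam Zi Zr, tc lam T) : Tup A.toAbVar n s) =
      (0, 0, zc A.toAbVar lam Zi Zr, tc lam T) := by
    unfold sh
    refine Prod.ext rfl (Prod.ext rfl (Prod.ext rfl ?_))
    funext i l
    change tc lam T i l + 2 * (0 : ℚ) * τ i l = tc lam T i l
    ring
  rw [← h2] at h1
  obtain ⟨L', hL', h3⟩ := frame_mem hLg u.w τ h1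
  rw [h3]
  exact hL'.2 k

theorem bL_mem_H (hpt : PtM A.toAbVar d H) (u : UD (gg A.toAbVar n s H) d)
    {W : Tup A.toAbVar n s} (hW : W ∈ gg A.toAbVar n s H) (h1 : W.1 = 0) (h2 : W.2.1 = 1) {c : ℂ}
    (hc : c ≠ 0) : kF A.toAbVar u.w (tau0 u W) * bL g n s c * kI A.toAbVar u.w (tau0 u W) ∈ H := by
  have hLg := gg_Lg hpt
  rw [← exp_bL (A := A) c hc, ← kF_inv, ← Matrix.exp_conj _ _ (isUnit_kF _ _ _), kF_inv]
  obtain ⟨L', hL', h3⟩ := frame_mem hLg u.w (tau0 u W) (weight_mem hLg u hW h1 h2)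
  rw [Matrix.mul_smul, Matrix.smul_mul, h3]
  exact exp_mem hpt.grp fun k => (hL'.2 k).smul _

end Pool.Agent.T6.H14.UG
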