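import Pool.Agent.T6.H14.UG.Dlg

set_option autoImplicit false
set_option linter.unusedSectionVars false
set_option linter.unusedSimpArgs false

/-!
# The group which is given by the unipotent part
-/

open Module Function TensorProduct Matrix

noncomputable section

namespace Pool.Agent.T6.H14.UG

open Pool.Agent.Y102 Pool.Agent.W516.DR Pool.Agent.H204R3.GP Pool.Agent.W516.KC
  Pool.Agent.H204R3.SP Pool.Agent.TH119.MX Pool.Agent.R917.OM Pool.Agent.R917.BX
  Pool.Agent.R917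

variable {g : ℕ} {A : AbVarG g} {n s : ℕ} {𝔤 : Submodule ℚ (Tup A.toAbVar n s)} {d : Dt g n s}

/-- the rational components of the rows -/
def zc (A : AbVar g) (lam : ℂ →ₗ[ℚ] ℚ) (Zi : Matrix (Fin n) (Fin (2 * g)) ℂ)
    (Zr : Matrix (Fin s) (Fin (2 * g)) ℂ) : (Fin n ⊕ Fin s) → A.H1 :=
  Sum.elim (fun i j => lam (Zi i j)) (fun l j => lam (Zr l j))

section rel

variable (f : (Fin n ⊕ Fin s) → Module.End ℚ A.toAbVar.H1) (Zi : Matrix (Fin n) (Fin (2 * g)) ℂ)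
    (Zr : Matrix (Fin s) (Fin (2 * g)) ℂ)

theorem vf_apply (j' : Fin (2 * g)) :
    vf (fun i => em (f (Sum.inl i))) (fun l => em (f (Sum.inr l))) Zi Zr j' =
      ∑ i, ∑ j, Zi i j * ((f (Sum.inl i) (eb A.toAbVar j) j' : ℚ) : ℂ) +
      ∑ l, ∑ j, Zr l j * ((f (Sum.inr l) (eb A.toAbVar j) j' : ℚ) : ℂ) := by
  unfold vf
  rw [Pi.add_apply, Finset.sum_apply, Finset.sum_apply]
  rfl

theorem sum_zc (lam : ℂ →ₗ[ℚ] ℚ) (j' : Fin (2 * g)) :
    (∑ q, f q (zc A.toAbVar lam Zi Zr q)) j' =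
      lam (vf (fun i => em (f (Sum.inl i))) (fun l => em (f (Sum.inr l))) Zi Zr j') := by
  have key : ∀ (X : Module.End ℚ A.toAbVar.H1) (z : Fin (2 * g) → ℂ),
      X (fun j => lam (z j)) j' = lam (∑ j, z j * ((X (eb A.toAbVar j) j' : ℚ) : ℂ)) := by
    intro X z
    have h1 := lin_sum (A := A.toAbVar) ((LinearMap.proj j' : A.toAbVar.H1 →ₗ[ℚ] ℚ).comp X)
      (fun j => lam (z j))
    simp only [LinearMap.comp_apply, LinearMap.proj_apply, smul_eq_mul] at h1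
    rw [h1, map_sum]
    refine Finset.sum_congr rfl fun j _ => ?_
    rw [mul_comm (z j), ← Rat.smul_def, map_smul, smul_eq_mul, mul_comm]
  rw [vf_apply, map_add, map_sum, map_sum, Finset.sum_apply, Fintype.sum_sum_type]
  congr 1
  · exact Finset.sum_congr rfl fun i _ => key _ _
  · exact Finset.sum_congr rfl fun i _ => key _ _

end rel

/-- the relations, with complex coefficients -/
def VC (u : UD 𝔤 d) (Zi : Matrix (Fin n) (Fin (2 * g)) ℂ) (Zr : Matrix (Fin s) (Fin (2 * g)) ℂ) :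
    Prop := ∀ p, vf (fun i => em (u.f p (Sum.inl i))) (fun l => em (u.f p (Sum.inr l))) Zi Zr = 0

theorem zc_mem {u : UD 𝔤 d} {Zi : Matrix (Fin n) (Fin (2 * g)) ℂ}
    {Zr : Matrix (Fin s) (Fin (2 * g)) ℂ} (h : VC u Zi Zr) (lam : ℂ →ₗ[ℚ] ℚ) :
    zc A.toAbVar lam Zi Zr ∈ uu 𝔤 := by
  rw [← u.π0]
  funext p
  rw [u.fπ]
  funext j'
  rw [sum_zc, h p, Pi.zero_apply, map_zero]
  rfl

/-- Complex vectors as combinations of their rational components. -/
theorem decomp (Zi : Matrix (Fin n) (Fin (2 * g)) ℂ) (Zr : Matrix (Fin s) (Fin (2 * g)) ℂ) :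
    ∃ (S : Finset ℂ) (lam : ℂ → ℂ →ₗ[ℚ] ℚ),
      Zi = ∑ b ∈ S, b • zI (zc A.toAbVar (lam b) Zi Zr) ∧
      Zr = ∑ b ∈ S, b • zR (zc A.toAbVar (lam b) Zi Zr) := by
  classical
  obtain ⟨S, hS⟩ := exists_coordsC (fun c : (Fin n ⊕ Fin s) × Fin (2 * g) =>
    Sum.elim (fun i => Zi i c.2) (fun l => Zr l c.2) c.1)
  let B := Basis.ofVectorSpace ℚ ℂ
  have hinj : Function.Injective (fun k => B k) := B.injective
  have hex : ∀ b : ℂ, ∃ lam : ℂ →ₗ[ℚ] ℚ, ∀ k, B k = b → lam = B.coord k := by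
    intro b
    by_cases h : ∃ k, B k = b
    · obtain ⟨k, hk⟩ := h
      exact ⟨B.coord k, fun k' hk' => by rw [hinj (hk.trans hk'.symm)]⟩
    · exact ⟨0, fun k hk => absurd ⟨k, hk⟩ h⟩
  choose lam hlam using hex
  refine ⟨S.image (fun k => B k), lam, ?_, ?_⟩
  · ext i j
    rw [Finset.sum_image (fun x _ y _ h => hinj h), Matrix.sum_apply]
    have h1 := hS (Sum.inl i, j)
    simp only [Sum.elim_inl] at h1
    rw [h1]
    refine Finset.sum_congr rfl fun k _ => ?_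
    rw [Matrix.smul_apply, smul_eq_mul, mul_comm, hlam _ k rfl]
    rfl
  · ext l j
    rw [Finset.sum_image (fun x _ y _ h => hinj h), Matrix.sum_apply]
    have h1 := hS (Sum.inr l, j)
    simp only [Sum.elim_inr] at h1
    rw [h1]
    refine Finset.sum_congr rfl fun k _ => ?_
    rw [Matrix.smul_apply, smul_eq_mul, mul_comm, hlam _ k rfl]
    rfl

/-- The brackets of complex vectors. -/
theorem brk_zero (h : Lg 𝔤 d) (u : UD 𝔤 d) {φ : (Fin n → Fin s → ℚ) →ₗ[ℚ] ℚ}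
    (hφ : ∀ t ∈ tt 𝔤, φ t = 0) {Zi Zi' : Matrix (Fin n) (Fin (2 * g)) ℂ}
    {Zr Zr' : Matrix (Fin s) (Fin (2 * g)) ℂ} (hZ : VC u Zi Zr) (hZ' : VC u Zi' Zr') :
    lf (Matrix.of (mC φ)) (Zi * (Zr' * OmM A.toAbVar)ᵀ - Zi' * (Zr * OmM A.toAbVar)ᵀ) = 0 := by
  have hrat : ∀ z z' : (Fin n ⊕ Fin s) → A.toAbVar.H1, z ∈ uu 𝔤 → z' ∈ uu 𝔤 →
      lf (Matrix.of (mC φ)) (zI z * (zR z' * OmM A.toAbVar)ᵀ - zI z' * (zR z * OmM A.toAbVar)ᵀ) =
        0 := by
    intro z z' hz hz'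
    have h1 := hφ _ (bb_mem h hz' hz)
    rw [phi_eq] at h1
    have h2 := congrArg (fun q : ℚ => (q : ℂ)) h1
    push_cast at h2
    rw [← h2]
    unfold lf
    refine Finset.sum_congr rfl fun i _ => Finset.sum_congr rfl fun l _ => ?_
    rw [Matrix.sub_apply, om_rows2 A.toAbVar (zR z') (zI z) (fun l => z' (Sum.inr l))
      (fun i => z (Sum.inl i)) (fun _ _ => rfl) (fun _ _ => rfl),
      om_rows2 A.toAbVar (zR z) (zI z') (fun l => z (Sum.inr l))
      (fun i => z' (Sum.inl i)) (fun _ _ => rfl) (fun _ _ => rfl)]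
    unfold bb
    push_cast
    rfl
  obtain ⟨S, lam, e1, e2⟩ := decomp (A := A) Zi Zr
  obtain ⟨S', lam', e1', e2'⟩ := decomp (A := A) Zi' Zr'
  have hsum : Zi * (Zr' * OmM A.toAbVar)ᵀ - Zi' * (Zr * OmM A.toAbVar)ᵀ =
      ∑ b ∈ S, ∑ b' ∈ S', (b * b') • (zI (zc A.toAbVar (lam b) Zi Zr) *
        (zR (zc A.toAbVar (lam' b') Zi' Zr') * OmM A.toAbVar)ᵀ -
        zI (zc A.toAbVar (lam' b') Zi' Zr') *
          (zR (zc A.toAbVar (lam b) Zi Zr) * OmM A.toAbVar)ᵀ) := by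
    have f1 : Zi * (Zr' * OmM A.toAbVar)ᵀ = ∑ b ∈ S, ∑ b' ∈ S', (b * b') •
        (zI (zc A.toAbVar (lam b) Zi Zr) *
        (zR (zc A.toAbVar (lam' b') Zi' Zr') * OmM A.toAbVar)ᵀ) := by
      conv_lhs => rw [e1, e2']
      rw [Matrix.sum_mul]
      refine Finset.sum_congr rfl fun b _ => ?_
      rw [Matrix.sum_mul, Matrix.transpose_sum, Matrix.mul_sum]
      refine Finset.sum_congr rfl fun b' _ => ?_
      rw [Matrix.smul_mul, Matrix.smul_mul, Matrix.transpose_smul, Matrix.mul_smul, smul_smul]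
    have f2 : Zi' * (Zr * OmM A.toAbVar)ᵀ = ∑ b ∈ S, ∑ b' ∈ S', (b * b') •
        (zI (zc A.toAbVar (lam' b') Zi' Zr') *
          (zR (zc A.toAbVar (lam b) Zi Zr) * OmM A.toAbVar)ᵀ) := by
      rw [Finset.sum_comm]
      conv_lhs => rw [e2, e1']
      rw [Matrix.sum_mul]
      refine Finset.sum_congr rfl fun b' _ => ?_
      rw [Matrix.sum_mul, Matrix.transpose_sum, Matrix.mul_sum]
      refine Finset.sum_congr rfl fun b _ => ?_
      rw [Matrix.smul_mul, Matrix.smul_mul, Matrix.transpose_smul, Matrix.mul_smul, smul_smul,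
        mul_comm]
    rw [f1, f2, ← Finset.sum_sub_distrib]
    refine Finset.sum_congr rfl fun b _ => ?_
    rw [← Finset.sum_sub_distrib]
    exact Finset.sum_congr rfl fun b' _ => (smul_sub _ _ _).symm
  rw [hsum]
  have hlin : ∀ (T : Finset ℂ) (F : ℂ → Matrix (Fin n) (Fin s) ℂ),
      (∀ b ∈ T, lf (Matrix.of (mC φ)) (F b) = 0) →
        lf (Matrix.of (mC φ)) (∑ b ∈ T, F b) = 0 := by
    intro T F hF
    classical
    induction T using Finset.induction_on with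
    | empty => rw [Finset.sum_empty, lf_zero]
    | insert a T ha ih =>
      rw [Finset.sum_insert ha, lf_add, hF a (Finset.mem_insert_self _ _),
        ih fun b hb => hF b (Finset.mem_insert_of_mem hb), add_zero]
  refine hlin _ _ fun b _ => hlin _ _ fun b' _ => ?_
  rw [lf_smul, hrat _ _ (zc_mem hZ _) (zc_mem hZ' _), mul_zero]

theorem isRatM_em (X : Module.End ℚ A.toAbVar.H1) : IsRatM (em X) := fun _ _ => ⟨_, rfl⟩

/-- The data of the group. -/
def dt (h : Lg 𝔤 d) (u : UD 𝔤 d) : Dat (Fin (2 * g)) (Fin s) (Fin n) where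
  Om := OmM A.toAbVar
  OmI := OmI A.toAbVar
  inv1 := om_inv1 A.toAbVar
  inv2 := om_inv2 A.toAbVar
  anti := om_antiM A.toAbVar
  ratO := isRatM_map _
  ratI := isRatM_map _
  P := Fin n ⊕ Fin s
  fN := fun p i => em (u.f p (Sum.inl i))
  fS := fun p l => em (u.f p (Sum.inr l))
  ratN := fun _ _ => isRatM_em _
  ratS := fun _ _ => isRatM_em _
  Q := {φ : (Fin n → Fin s → ℚ) →ₗ[ℚ] ℚ // ∀ t ∈ tt 𝔤, φ t = 0}
  c := fun φ => Matrix.of (mC φ.1)
  ratc := fun φ i l => ⟨mm φ.1 i l, rfl⟩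
  brk := fun φ _ _ _ _ hZ hZ' => brk_zero h u φ.2 hZ hZ'

/-! ### The elements of the Deligne torus -/

theorem repr_F {f : Module.End ℚ A.toAbVar.H1} {F : (Fin g → ℂ) →ₗ[ℂ] (Fin g → ℂ)}
    (hf : ∀ w, A.per (f w) = F (A.per w)) (x : Fin g → ℂ) (j' : Fin (2 * g)) :
    ∑ j, ((A.lam.repr x j : ℝ) : ℂ) * ((f (eb A.toAbVar j) j' : ℚ) : ℂ) =
      ((A.lam.repr (F x) j' : ℝ) : ℂ) := by
  have h1 : F x = ∑ j, A.lam.repr x j • A.per (f (eb A.toAbVar j)) := by
    conv_lhs => rw [← A.lam.sum_repr x, map_sum]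
    refine Finset.sum_congr rfl fun j _ => ?_
    rw [hf, per_ebA]
    exact LinearMap.map_smul_of_tower F _ _
  rw [h1, map_sum, Finsupp.finsetSum_apply]
  push_cast
  refine Finset.sum_congr rfl fun j _ => ?_
  rw [map_smul, Finsupp.smul_apply, smul_eq_mul, Complex.ofReal_mul, A.repr_per]
  norm_cast

/-- the product of the complex structure and of an endomorphism -/
theorem hm_comm {f : Module.End ℚ A.toAbVar.H1} {F : (Fin g → ℂ) →ₗ[ℂ] (Fin g → ℂ)}
    (hf : ∀ w, A.per (f w) = F (A.per w)) (z : ℂ) : hm A.toAbVar z * em f = em f * hm A.toAbVar z := by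
  have key : hm A.toAbVar Complex.I * em f = em f * hm A.toAbVar Complex.I := by
    ext j j'
    rw [Matrix.mul_apply, Matrix.mul_apply]
    have h1 := repr_F hf (Complex.I • A.lam j) j'
    have h2 : ∀ k, em f j k = ((A.lam.repr (A.per (f (eb A.toAbVar j))) k : ℝ) : ℂ) := by
      intro k
      rw [A.repr_per]
      change ((f (eb A.toAbVar j) k : ℚ) : ℂ) = _
      norm_cast
    simp only [h2]
    rw [repr_I, hf, per_ebA, ← map_smul F, ← h1]
    rfl
  rw [hm_eq, Matrix.add_mul, Matrix.mul_add, Matrix.smul_mul, Matrix.mul_smul, Matrix.one_mul,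
    Matrix.mul_one, Matrix.smul_mul, Matrix.mul_smul, key]

theorem hm_sim (z : ℂ) : hm A.toAbVar z * OmM A.toAbVar * (hm A.toAbVar z)ᵀ =
    (z * (starRingEnd ℂ) z) • OmM A.toAbVar := by
  have hs := hm_skew A.toAbVar
  have hJ : hm A.toAbVar Complex.I * hm A.toAbVar Complex.I = -1 := by
    rw [← hm_mul, Complex.I_mul_I]
    have h1 := hm_real A.toAbVar (-1) 1
    rw [hm_one, mul_one] at h1
    push_cast at h1
    rw [h1, neg_one_smul]
  have h2 : hm A.toAbVar Complex.I * OmM A.toAbVar * (hm A.toAbVar Complex.I)ᵀ =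
      OmM A.toAbVar := by
    have h3 : OmM A.toAbVar * (hm A.toAbVar Complex.I)ᵀ =
        -(hm A.toAbVar Complex.I * OmM A.toAbVar) := eq_neg_of_add_eq_zero_right hs
    rw [Matrix.mul_assoc, h3, Matrix.mul_neg, ← Matrix.mul_assoc, hJ, Matrix.neg_mul,
      Matrix.one_mul, neg_neg]
  have h3 : z * (starRingEnd ℂ) z = (z.re : ℂ) * z.re + (z.im : ℂ) * z.im := by
    rw [Complex.mul_conj, Complex.normSq_apply]
    push_cast
    ring
  rw [h3, hm_eq A.toAbVar z]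
  simp only [Matrix.transpose_add, Matrix.transpose_smul, Matrix.transpose_one, Matrix.add_mul,
    Matrix.mul_add, Matrix.smul_mul, Matrix.mul_smul, Matrix.one_mul, Matrix.mul_one, h2]
  have h4 : OmM A.toAbVar * (hm A.toAbVar Complex.I)ᵀ =
        -(hm A.toAbVar Complex.I * OmM A.toAbVar) := eq_neg_of_add_eq_zero_right hs
  rw [h4]
  simp only [smul_neg, smul_smul, smul_add, add_smul]
  rw [mul_comm (z.re : ℂ) (z.im : ℂ)]
  abel

/-- the block diagonal element -/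
def bZ (A : AbVar g) (n s : ℕ) (z : ℂ) : Matrix (RI g n s) (RI g n s) ℂ :=
  bm (hm A z) 0 (z * (starRingEnd ℂ) z) 0 0 1

theorem bm_a {X : Matrix (Fin (2 * g)) (Fin (2 * g)) ℂ} {y : Matrix (Fin (2 * g)) (Fin s) ℂ}
    {z : Matrix (Fin n) (Fin (2 * g)) ℂ} {t : Matrix (Fin n) (Fin s) ℂ} {a a' b : ℂ}
    (h : ∀ _ : Fin s, a = a') : bm X y a z t b = bm X y a' z t b := by
  ext r r'
  rcases r with j | l | i <;> rcases r' with j' | l' | i' <;>
    simp only [bm, Matrix.of_apply, Sum.elim_inl, Sum.elim_inr]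
  rw [h l]

theorem bZ_mem (h : Lg 𝔤 d) (u : UD 𝔤 d) {z : ℂ} (hz : z ≠ 0) :
    bZ A.toAbVar n s z ∈ (dt h u).G := by
  classical
  let a : ℂ := if IsEmpty (Fin s) then 1 else z * (starRingEnd ℂ) z
  have ha : ∀ _ : Fin s, z * (starRingEnd ℂ) z = a := by
    intro l
    have : ¬ IsEmpty (Fin s) := fun h => h.false l
    simp only [a, if_neg this]
  have hne : z * (starRingEnd ℂ) z ≠ 0 := mul_ne_zero hz (by
    intro h0
    exact hz (by simpa using h0))
  refine ⟨hm A.toAbVar z, a, 0, 0, 0, ?_, ?_⟩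
  · constructor
    · refine ⟨hm A.toAbVar z⁻¹, ?_, ?_⟩
      · rw [← hm_mul, mul_inv_cancel₀ hz, hm_one]
      · rw [← hm_mul, inv_mul_cancel₀ hz, hm_one]
    · simp only [a]
      split_ifs
      · exact one_ne_zero
      · exact hne
    · intro h0
      simp only [a, if_pos h0]
    · intro l
      rw [← ha l]
      exact hm_sim z
    · exact fun p i => hm_comm (u.fF p (Sum.inl i)) z
    · exact fun p i => hm_comm (u.fF p (Sum.inr i)) z
    · exact fun p => vf_zero _ _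
    · exact fun q => lf_zero _
  · unfold bZ pm
    rw [bm_a ha]
    congr 1
    · simp
    · simp

theorem vc_pt (u : UD 𝔤 d) : VC u (pI A.toAbVar (fd u.w d)) (pR A.toAbVar (fd u.w d)) := by
  intro p
  funext j'
  rw [vf_apply, Pi.zero_apply]
  have h1 := u.mem_W.1 u.pt_mem p
  rw [Fintype.sum_sum_type] at h1
  have h2 : ∀ x : Fin g → ℂ, ∀ q, ∑ j, ((A.lam.repr x j : ℝ) : ℂ) *
      ((u.f p q (eb A.toAbVar j) j' : ℚ) : ℂ) = ((A.lam.repr (u.F p q x) j' : ℝ) : ℂ) :=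
    fun x q => repr_F (u.fF p q) x j'
  have h3 : ∑ i, ∑ j, pI A.toAbVar (fd u.w d) i j *
      ((u.f p (Sum.inl i) (eb A.toAbVar j) j' : ℚ) : ℂ) =
      ((A.lam.repr (∑ i, u.F p (Sum.inl i) ((pt d - Pe u.w) (Sum.inl i))) j' : ℝ) : ℂ) := by
    rw [map_sum, Finsupp.finsetSum_apply]
    push_cast
    exact Finset.sum_congr rfl fun i _ => h2 _ _
  have h4 : ∑ l, ∑ j, pR A.toAbVar (fd u.w d) l j *
      ((u.f p (Sum.inr l) (eb A.toAbVar j) j' : ℚ) : ℂ) =
      ((A.lam.repr (∑ l, u.F p (Sum.inr l) ((pt d - Pe u.w) (Sum.inr l))) j' : ℝ) : ℂ) := by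
    rw [map_sum, Finsupp.finsetSum_apply]
    push_cast
    exact Finset.sum_congr rfl fun i _ => h2 _ _
  rw [h3, h4, ← Complex.ofReal_add, ← Finsupp.add_apply, ← map_add, h1, map_zero]
  simp

end Pool.Agent.T6.H14.UG
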